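import Pool.Agent.H75.RayN.ChkN
import Pool.Agent.H75.Ray.Par

/-!
# Labelled matroids on n = m + 2 elements (MP_934449_co)

`msk T = ∑ t ∈ T, 2 ^ t` for `T ⊆ Fin n`, `c3 n m` is the number with the base 3 digits equal to the first
`n` base 2 digits of `m`, `codes n r isb` the list of the `c3 n m` of the `m < 2 ^ n` with `r` binary digits
`1` and `isb m`. Automorphisms of the matroid are used, so that only one pair of each orbit is checked.
-/

set_option autoImplicit false

namespace Pool.Agent.H75.RayN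

open Finset Pool.Agent.H55.Ray
open Pool.Agent.H75.Ray (dg D1b dg_zero dg_succ rayDiff_comm)

/-- mask of a set -/
def msk {n : ℕ} (T : Finset (Fin n)) : ℕ := ∑ t ∈ T, 2 ^ (t : ℕ)

/-- from base 2 to base 3, `n` digits -/
def c3 : ℕ → ℕ → ℕ
  | 0, _ => 0
  | n + 1, m => m % 2 + 3 * c3 n (m / 2)

/-- number of digits `1` among the first `n` binary digits -/
def pc : ℕ → ℕ → ℕ
  | 0, _ => 0
  | n + 1, m => m % 2 + pc n (m / 2)

/-- the codes of the bases -/
def codes (n r : ℕ) (isb : ℕ → Bool) : List ℕ :=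
  ((List.range (2 ^ n)).filter (fun m => Nat.beq (pc n m) r && isb m)).map (c3 n)

/-! ### digits -/

/-- the indicator of `T` -/
def ind {n : ℕ} (T : Finset (Fin n)) (c : ℕ) : ℕ :=
  if h : c < n then (if ⟨c, h⟩ ∈ T then 1 else 0) else 0

theorem ind_fin {n : ℕ} (T : Finset (Fin n)) (t : Fin n) : ind T t = if t ∈ T then 1 else 0 := by
  unfold ind
  rw [dif_pos t.2]

theorem ind_le {n : ℕ} (T : Finset (Fin n)) (c : ℕ) : ind T c ≤ 1 := by
  unfold ind
  split_ifs <;> norm_num

private theorem digit_gen {X K : ℕ} {d : ℕ → ℕ} (hd : ∀ c, d c < X) :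
    ∀ j : ℕ, j < K → (∑ c ∈ range K, d c * X ^ c) / X ^ j % X = d j := by
  have hX : 0 < X := lt_of_le_of_lt (Nat.zero_le _) (hd 0)
  induction K generalizing d with
  | zero =>
    intro j hj
    omega
  | succ K ih =>
    intro j hj
    have h1 : ∑ c ∈ range (K + 1), d c * X ^ c =
        d 0 + X * ∑ c ∈ range K, d (c + 1) * X ^ c := by
      rw [Finset.sum_range_succ', pow_zero, mul_one, add_comm, Finset.mul_sum]
      congr 1
      refine Finset.sum_congr rfl fun c _ => ?_
      rw [pow_succ]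
      ring
    rw [h1]
    cases j with
    | zero =>
      rw [pow_zero, Nat.div_one, Nat.add_mul_mod_self_left, Nat.mod_eq_of_lt (hd 0)]
    | succ j =>
      rw [pow_succ', ← Nat.div_div_eq_div_mul, Nat.add_mul_div_left _ _ hX,
        Nat.div_eq_of_lt (hd 0), zero_add]
      exact ih (fun c => hd (c + 1)) j (by omega)

theorem sum_ind {n : ℕ} (T : Finset (Fin n)) (g : ℕ → ℕ) :
    ∑ t ∈ T, g t = ∑ c ∈ range n, ind T c * g c := by
  rw [← Fin.sum_univ_eq_sum_range (fun c => ind T c * g c) n]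
  have h1 : ∀ t ∈ (Finset.univ : Finset (Fin n)), ind T t * g t = if t ∈ T then g t else 0 := by
    intro t _
    rw [ind_fin]
    split_ifs
    · rw [one_mul]
    · rw [zero_mul]
  rw [Finset.sum_congr rfl h1, Finset.sum_ite_mem, Finset.univ_inter]

theorem msk_eq {n : ℕ} (T : Finset (Fin n)) : msk T = ∑ c ∈ range n, ind T c * 2 ^ c :=
  sum_ind T (fun c => 2 ^ c)

theorem msk_digit {n : ℕ} (T : Finset (Fin n)) {t : ℕ} (ht : t < n) :
    msk T / 2 ^ t % 2 = ind T t := by
  rw [msk_eq]
  exact digit_gen (fun c => lt_of_le_of_lt (ind_le T c) (by norm_num)) t ht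

theorem c3_eq (n m : ℕ) : c3 n m = ∑ c ∈ range n, (m / 2 ^ c % 2) * 3 ^ c := by
  induction n generalizing m with
  | zero => rfl
  | succ n ih =>
    have h : c3 (n + 1) m = m % 2 + 3 * c3 n (m / 2) := rfl
    rw [h, ih, Finset.sum_range_succ', pow_zero, pow_zero, mul_one, Nat.div_one, add_comm,
      Finset.mul_sum]
    congr 1
    refine Finset.sum_congr rfl fun c _ => ?_
    rw [Nat.div_div_eq_div_mul, pow_succ' 2 c, pow_succ' 3 c]
    ring

theorem pc_eq (n m : ℕ) : pc n m = ∑ c ∈ range n, m / 2 ^ c % 2 := by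
  induction n generalizing m with
  | zero => rfl
  | succ n ih =>
    have h : pc (n + 1) m = m % 2 + pc n (m / 2) := rfl
    rw [h, ih, Finset.sum_range_succ', pow_zero, Nat.div_one, add_comm]
    congr 1
    refine Finset.sum_congr rfl fun c _ => ?_
    rw [Nat.div_div_eq_div_mul, pow_succ' 2 c]

theorem D1b_c3 (n m : ℕ) : D1b n (c3 n m) = true := by
  induction n generalizing m with
  | zero => rfl
  | succ n ih =>
    have h1 : (m % 2 + 3 * c3 n (m / 2)) % 3 = m % 2 := by omega
    have h2 : (m % 2 + 3 * c3 n (m / 2)) / 3 = c3 n (m / 2) := by omega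
    show (Nat.ble ((m % 2 + 3 * c3 n (m / 2)) % 3) 1 &&
      D1b n ((m % 2 + 3 * c3 n (m / 2)) / 3)) = true
    rw [h1, h2, Bool.and_eq_true]
    exact ⟨Nat.ble_eq_true_of_le (by omega), ih _⟩

theorem dg_c3 {n : ℕ} (T : Finset (Fin n)) {t : ℕ} (ht : t < n) :
    dg (c3 n (msk T)) t = ind T t := by
  have h1 : c3 n (msk T) = ∑ c ∈ range n, ind T c * 3 ^ c := by
    rw [c3_eq]
    refine Finset.sum_congr rfl fun c hc => ?_
    rw [msk_digit T (mem_range.1 hc)]
  unfold dg
  rw [h1]
  exact digit_gen (fun c => lt_of_le_of_lt (ind_le T c) (by norm_num)) t ht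

theorem pc_msk {n : ℕ} (T : Finset (Fin n)) : pc n (msk T) = T.card := by
  have h := sum_ind T (fun _ => 1)
  rw [Finset.sum_const, smul_eq_mul, mul_one] at h
  rw [pc_eq, h]
  refine Finset.sum_congr rfl fun c hc => ?_
  rw [msk_digit T (mem_range.1 hc), mul_one]

private theorem sum_two_pow (n : ℕ) : ∑ c ∈ range n, 1 * 2 ^ c + 1 = 2 ^ n := by
  induction n with
  | zero => rfl
  | succ n ih =>
    rw [Finset.sum_range_succ, pow_succ]
    omega

theorem msk_lt {n : ℕ} (T : Finset (Fin n)) : msk T < 2 ^ n := by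
  rw [msk_eq]
  have h : ∑ c ∈ range n, ind T c * 2 ^ c ≤ ∑ c ∈ range n, 1 * 2 ^ c :=
    Finset.sum_le_sum fun c _ => Nat.mul_le_mul_right _ (ind_le T c)
  have h2 := sum_two_pow n
  omega

theorem msk_inj {n : ℕ} {T T' : Finset (Fin n)} (h : msk T = msk T') : T = T' := by
  ext t
  have h1 := msk_digit T t.2
  have h2 := msk_digit T' t.2
  rw [h, h2, ind_fin, ind_fin] at h1
  by_cases a : t ∈ T <;> by_cases b : t ∈ T'
  · simp [a, b]
  · rw [if_pos a, if_neg b] at h1
    omega
  · rw [if_neg a, if_pos b] at h1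
    omega
  · simp [a, b]

private theorem sum_digits (n : ℕ) {m : ℕ} (hm : m < 2 ^ n) :
    ∑ c ∈ range n, (m / 2 ^ c % 2) * 2 ^ c = m := by
  induction n generalizing m with
  | zero =>
    rw [pow_zero] at hm
    rw [Finset.sum_range_zero]
    omega
  | succ n ih =>
    rw [pow_succ] at hm
    have h1 : m / 2 < 2 ^ n := by omega
    have h2 := ih h1
    rw [Finset.sum_range_succ', pow_zero, Nat.div_one, mul_one]
    have h3 : ∑ c ∈ range n, (m / 2 ^ (c + 1) % 2) * 2 ^ (c + 1) =
        2 * ∑ c ∈ range n, (m / 2 / 2 ^ c % 2) * 2 ^ c := by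
      rw [Finset.mul_sum]
      refine Finset.sum_congr rfl fun c _ => ?_
      rw [Nat.div_div_eq_div_mul, pow_succ' 2 c]
      ring
    rw [h3, h2]
    omega

theorem msk_surj {n m : ℕ} (hm : m < 2 ^ n) : ∃ T : Finset (Fin n), msk T = m := by
  refine ⟨Finset.univ.filter (fun t => m / 2 ^ (t : ℕ) % 2 = 1), ?_⟩
  rw [msk_eq]
  have h1 : ∀ c ∈ range n, ind (Finset.univ.filter (fun t : Fin n => m / 2 ^ (t : ℕ) % 2 = 1)) c *
      2 ^ c = (m / 2 ^ c % 2) * 2 ^ c := by
    intro c hc
    have hc' := mem_range.1 hc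
    unfold ind
    rw [dif_pos hc']
    simp only [Finset.mem_filter, Finset.mem_univ, true_and]
    split_ifs with h
    · rw [h]
    · have : m / 2 ^ c % 2 = 0 := by omega
      rw [this]
  rw [Finset.sum_congr rfl h1]
  exact sum_digits n hm

theorem mono_msk {n : ℕ} (w : ℕ → ℝ) (T : Finset (Fin n)) :
    mono n w (c3 n (msk T)) = ∏ t ∈ T, w t := by
  unfold mono
  rw [← Fin.prod_univ_eq_prod_range (fun c => w c ^ dg (c3 n (msk T)) c) n]
  have h1 : ∀ t ∈ (Finset.univ : Finset (Fin n)), w t ^ dg (c3 n (msk T)) t =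
      if t ∈ T then w t else 1 := by
    intro t _
    rw [dg_c3 T t.2, ind_fin]
    split_ifs
    · rw [pow_one]
    · rw [pow_zero]
  rw [Finset.prod_congr rfl h1, Finset.prod_ite_mem, Finset.univ_inter]

/-! ### sums over lists and over subsets -/

theorem phi_codes (n r : ℕ) (w : ℕ → ℝ) (e f a b : ℕ) (isb : ℕ → Bool) :
    phi n w (selL e f a b (codes n r isb)) = ∑ m ∈ range (2 ^ n),
      if (pc n m = r ∧ isb m = true) ∧ dg (c3 n m) e = a ∧ dg (c3 n m) f = b then
        mono n w (c3 n m) else 0 := by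
  have h1 : ∀ L : List ℕ, phi n w (selL e f a b
      ((L.filter (fun m => Nat.beq (pc n m) r && isb m)).map (c3 n))) = (L.map (fun m =>
      if (pc n m = r ∧ isb m = true) ∧ dg (c3 n m) e = a ∧ dg (c3 n m) f = b then
        mono n w (c3 n m) else 0)).sum := by
    intro L
    induction L with
    | nil => rfl
    | cons m L ih =>
      rw [List.map_cons, List.sum_cons, ← ih, List.filter_cons]
      by_cases h2 : (Nat.beq (pc n m) r && isb m) = true
      · rw [if_pos h2, List.map_cons]
        have h3 : pc n m = r ∧ isb m = true := by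
          rw [Bool.and_eq_true] at h2
          exact ⟨Nat.eq_of_beq_eq_true h2.1, h2.2⟩
        unfold selL
        rw [List.filter_cons]
        by_cases h4 : (dg (c3 n m) e == a && dg (c3 n m) f == b) = true
        · rw [if_pos h4, List.map_cons, phi_cons]
          have h5 : dg (c3 n m) e = a ∧ dg (c3 n m) f = b := by simpa using h4
          rw [if_pos ⟨h3, h5⟩]
          norm_num
        · rw [if_neg h4]
          have h5 : ¬ (dg (c3 n m) e = a ∧ dg (c3 n m) f = b) := by simpa using h4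
          rw [if_neg (fun h => h5 h.2), zero_add]
      · rw [if_neg h2]
        have h3 : ¬ (pc n m = r ∧ isb m = true) := by
          intro h
          apply h2
          rw [Bool.and_eq_true]
          exact ⟨by rw [h.1]; exact Nat.beq_refl r, h.2⟩
        rw [if_neg (fun h => h3 h.1), zero_add]
  unfold codes
  rw [h1, ← List.sum_toFinset _ (List.nodup_range), List.toFinset_range]

theorem sum_msk (n : ℕ) (F : ℕ → ℝ) :
    ∑ m ∈ range (2 ^ n), F m = ∑ T : Finset (Fin n), F (msk T) := by
  symm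
  refine Finset.sum_bij (fun T _ => msk T) (fun T _ => mem_range.2 (msk_lt T))
    (fun T _ T' _ h => msk_inj h) (fun m hm => ?_) (fun T _ => rfl)
  obtain ⟨T, hT⟩ := msk_surj (mem_range.1 hm)
  exact ⟨T, mem_univ T, hT⟩

/-! ### labelled matroids -/

section labelled

variable {n : ℕ} {α : Type*} [Fintype α] {M : Matroid α} {φ : Fin n → α}

open Classical in
theorem basisSum_label (hφ : Function.Injective φ) (hr : Set.range φ = M.E) (y : α → ℝ)
    (U V : Set α) : basisSum M y U V = ∑ T : Finset (Fin n),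
      if M.IsBase (φ '' (T : Set (Fin n))) ∧ U ⊆ φ '' (T : Set (Fin n)) ∧
        Disjoint (φ '' (T : Set (Fin n))) V then ∏ t ∈ T, y (φ t) else 0 := by
  unfold basisSum
  rw [← Finset.sum_filter]
  symm
  refine Finset.sum_bij (fun T _ => T.image φ) ?_ ?_ ?_ ?_
  · intro T hT
    simp only [Finset.mem_filter, Finset.mem_univ, true_and, Finset.coe_image] at hT ⊢
    exact hT
  · intro T _ T' _ h
    exact Finset.image_injective hφ h
  · intro B hB
    simp only [Finset.mem_filter, Finset.mem_univ, true_and] at hB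
    have h1 : (B : Set α) ⊆ Set.range φ := by
      rw [hr]
      exact hB.1.subset_ground
    refine ⟨Finset.univ.filter (fun t => φ t ∈ B), ?_, ?_⟩
    · have h2 : φ '' ((Finset.univ.filter (fun t => φ t ∈ B) : Finset (Fin n)) : Set (Fin n)) =
          (B : Set α) := by
        ext x
        constructor
        · rintro ⟨t, ht, rfl⟩
          simpa using ht
        · intro hx
          obtain ⟨t, rfl⟩ := h1 hx
          exact ⟨t, by simpa using hx, rfl⟩
      simp only [Finset.mem_filter, Finset.mem_univ, true_and]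
      rw [h2]
      exact hB
    · ext x
      constructor
      · intro hx
        rw [Finset.mem_image] at hx
        obtain ⟨t, ht, rfl⟩ := hx
        simpa using ht
      · intro hx
        obtain ⟨t, rfl⟩ := h1 (Finset.mem_coe.2 hx)
        rw [Finset.mem_image]
        exact ⟨t, by simpa using hx, rfl⟩
  · intro T _
    rw [Finset.prod_image (fun a _ b _ h => hφ h)]

theorem basisSum_codes (hφ : Function.Injective φ) (hr : Set.range φ = M.E) {r : ℕ}
    {isb : ℕ → Bool} (hb : ∀ T : Finset (Fin n), M.IsBase (φ '' (T : Set (Fin n))) ↔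
      T.card = r ∧ isb (msk T) = true) {y : α → ℝ} {w : ℕ → ℝ}
    (hw : ∀ t : Fin n, w t = y (φ t)) (i j : Fin n) (a b : ℕ) {U V : Set α}
    (hUV : ∀ T : Finset (Fin n), (U ⊆ φ '' (T : Set (Fin n)) ∧
      Disjoint (φ '' (T : Set (Fin n))) V) ↔ (ind T i = a ∧ ind T j = b)) :
    basisSum M y U V = phi n w (selL i j a b (codes n r isb)) := by
  classical
  rw [basisSum_label hφ hr, phi_codes, sum_msk]
  refine Finset.sum_congr rfl fun T _ => ?_
  rw [pc_msk, dg_c3 T i.2, dg_c3 T j.2, mono_msk]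
  have h1 := hUV T
  have h2 := hb T
  have h3 : ∏ t ∈ T, y (φ t) = ∏ t ∈ T, w t := Finset.prod_congr rfl fun t _ => (hw t).symm
  by_cases h4 : M.IsBase (φ '' (T : Set (Fin n))) ∧ U ⊆ φ '' (T : Set (Fin n)) ∧
      Disjoint (φ '' (T : Set (Fin n))) V
  · rw [if_pos h4, if_pos ⟨h2.1 h4.1, h1.1 h4.2⟩, h3]
  · rw [if_neg h4, if_neg (fun h => h4 ⟨h2.2 h.1, h1.2 h.2⟩)]

private theorem ind_one {T : Finset (Fin n)} {t : Fin n} : ind T t = 1 ↔ t ∈ T := by
  rw [ind_fin]
  split_ifs with h <;> simp [h]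

private theorem ind_zero {T : Finset (Fin n)} {t : Fin n} : ind T t = 0 ↔ t ∉ T := by
  rw [ind_fin]
  split_ifs with h <;> simp [h]

/-- the Rayleigh difference in terms of the codes -/
theorem rayDiff_codes (hφ : Function.Injective φ) (hr : Set.range φ = M.E) {r : ℕ}
    {isb : ℕ → Bool} (hb : ∀ T : Finset (Fin n), M.IsBase (φ '' (T : Set (Fin n))) ↔
      T.card = r ∧ isb (msk T) = true) {y : α → ℝ} {w : ℕ → ℝ}
    (hw : ∀ t : Fin n, w t = y (φ t)) (i j : Fin n) :
    rayDiff M y (φ i) (φ j) =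
      phi n w (selL i j 1 0 (codes n r isb)) * phi n w (selL i j 0 1 (codes n r isb)) -
      phi n w (selL i j 1 1 (codes n r isb)) * phi n w (selL i j 0 0 (codes n r isb)) := by
  have hm : ∀ (T : Finset (Fin n)) (t : Fin n), φ t ∈ φ '' (T : Set (Fin n)) ↔ t ∈ T := by
    intro T t
    rw [hφ.mem_set_image]
    exact Finset.mem_coe
  unfold rayDiff
  rw [basisSum_codes hφ hr hb hw i j 1 0 (U := {φ i}) (V := {φ j}) (fun T => by
      rw [Set.singleton_subset_iff, Set.disjoint_singleton_right, hm, hm, ind_one, ind_zero]),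
    basisSum_codes hφ hr hb hw i j 0 1 (U := {φ j}) (V := {φ i}) (fun T => by
      rw [Set.singleton_subset_iff, Set.disjoint_singleton_right, hm, hm, ind_one, ind_zero]
      exact and_comm),
    basisSum_codes hφ hr hb hw i j 1 1 (U := {φ i, φ j}) (V := ∅) (fun T => by
      rw [Set.insert_subset_iff, Set.singleton_subset_iff, hm, hm, ind_one, ind_one]
      simp),
    basisSum_codes hφ hr hb hw i j 0 0 (U := ∅) (V := {φ i, φ j}) (fun T => by
      rw [Set.disjoint_insert_right, Set.disjoint_singleton_right, hm, hm, ind_zero, ind_zero]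
      simp)]

end labelled

/-- the pair `i < j` of the matroid on `Fin (m + 2)` of rank `r` with the bases `isb` has a certificate -/
def HasCert (m r : ℕ) (isb : ℕ → Bool) (i j : ℕ) : Prop :=
  ∃ (ww D : ℕ) (ts : List (ℕ × ℕ × List (ℕ × ℕ) × List (ℕ × ℕ))),
    i < j ∧ j < m + 2 ∧ chk m ww (codes (m + 2) r isb) i j D ts = true

/-- the number of the image of the set with the mask `s` under the map given by a list -/
def pmask : List ℕ → ℕ → ℕ
  | [], _ => 0
  | a :: p, s => (s % 2) * 2 ^ a + pmask p (s / 2)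

/-- `p` is a permutation of the numbers `< n` which preserves the sets of size `r` with `isb` -/
def autOK (n r : ℕ) (isb : ℕ → Bool) (p : List ℕ) : Bool :=
  Nat.beq p.length n && p.all (fun a => Nat.blt a n) && decide p.Nodup &&
    (List.range (2 ^ n)).all (fun s => !(Nat.beq (pc n s) r) || (isb s == isb (pmask p s)))

/-- the pair `(e, f)` is the image of a pair in the list `L` under a permutation in the list `ps` -/
def covers (ps : List (List ℕ)) (L : List (ℕ × ℕ)) (e f : ℕ) : Bool :=
  ps.any (fun p => L.any (fun x =>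
    (Nat.beq (p.getD x.1 0) e && Nat.beq (p.getD x.2 0) f) ||
      (Nat.beq (p.getD x.1 0) f && Nat.beq (p.getD x.2 0) e)))

/-- every pair is covered -/
def allCov (n : ℕ) (ps : List (List ℕ)) (L : List (ℕ × ℕ)) : Bool :=
  (List.range n).all (fun f => (List.range f).all (fun e => covers ps L e f))

section aut

variable {n : ℕ}

private theorem pmask_eq : ∀ (p : List ℕ) (s : ℕ),
    pmask p s = ∑ c ∈ range p.length, (s / 2 ^ c % 2) * 2 ^ (p.getD c 0)
  | [], s => rfl
  | a :: p, s => by
    have h : pmask (a :: p) s = (s % 2) * 2 ^ a + pmask p (s / 2) := rfl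
    rw [h, pmask_eq p (s / 2), List.length_cons, Finset.sum_range_succ', pow_zero, Nat.div_one,
      add_comm]
    congr 1
    refine Finset.sum_congr rfl fun c _ => ?_
    rw [Nat.div_div_eq_div_mul, pow_succ' 2 c, List.getD_cons_succ]

/-- a good list gives a permutation of `Fin n` -/
private theorem exists_perm {r : ℕ} {isb : ℕ → Bool} {p : List ℕ}
    (h : autOK n r isb p = true) : ∃ σ : Equiv.Perm (Fin n), (∀ t : Fin n, (σ t : ℕ) =
      p.getD t 0) ∧ ∀ T : Finset (Fin n), T.card = r →
      isb (msk T) = isb (msk (T.image σ)) := by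
  unfold autOK at h
  rw [Bool.and_eq_true, Bool.and_eq_true, Bool.and_eq_true] at h
  obtain ⟨⟨⟨h1, h2⟩, h3⟩, h4⟩ := h
  have h1' := Nat.eq_of_beq_eq_true h1
  rw [List.all_eq_true] at h2 h4
  have h3' : p.Nodup := by simpa using h3
  have hg : ∀ t : Fin n, p.getD t 0 = p[(t : ℕ)]'(by rw [h1']; exact t.2) := by
    intro t
    rw [List.getD_eq_getElem?_getD, List.getElem?_eq_getElem (by rw [h1']; exact t.2)]
    rfl
  have hlt : ∀ t : Fin n, p.getD t 0 < n := by
    intro t
    rw [hg]
    have := h2 _ (List.getElem_mem (by rw [h1']; exact t.2))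
    simpa [Nat.blt_eq] using this
  let f : Fin n → Fin n := fun t => ⟨p.getD t 0, hlt t⟩
  have hf : Function.Injective f := by
    intro s t hst
    have h5 : p.getD s 0 = p.getD t 0 := congrArg Fin.val hst
    rw [hg, hg] at h5
    exact Fin.ext ((List.Nodup.getElem_inj_iff h3').1 h5)
  let σ : Equiv.Perm (Fin n) := Equiv.ofBijective f (Finite.injective_iff_bijective.1 hf)
  refine ⟨σ, fun t => rfl, fun T hT => ?_⟩
  have h6 := h4 (msk T) (List.mem_range.2 (msk_lt T))
  have h7 : pmask p (msk T) = msk (T.image σ) := by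
    rw [pmask_eq, h1']
    unfold msk
    rw [Finset.sum_image (fun a _ b _ hab => σ.injective hab)]
    have h8 := sum_ind T (fun c => 2 ^ (p.getD c 0))
    have h9 : ∑ t ∈ T, 2 ^ ((σ t : Fin n) : ℕ) = ∑ t ∈ T, 2 ^ (p.getD (t : ℕ) 0) := rfl
    rw [h9, h8]
    refine Finset.sum_congr rfl fun c hc => ?_
    have h10 : (∑ t ∈ T, 2 ^ (t : ℕ)) / 2 ^ c % 2 = ind T c := msk_digit T (mem_range.1 hc)
    rw [h10]
  rw [pc_msk, h7, hT] at h6
  have h11 : Nat.beq r r = true := Nat.beq_refl r
  rw [h11] at h6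
  simpa using h6

end aut

section main

variable {m : ℕ} {α : Type*} [Fintype α] {M : Matroid α} {φ : Fin (m + 2) → α}

/-- one certified pair -/
theorem rayDiff_nonneg_of_cert (hφ : Function.Injective φ) (hr : Set.range φ = M.E) {r : ℕ}
    {isb : ℕ → Bool} (hb : ∀ T : Finset (Fin (m + 2)), M.IsBase (φ '' (T : Set (Fin (m + 2)))) ↔
      T.card = r ∧ isb (msk T) = true) {i j : Fin (m + 2)} (h : HasCert m r isb i j)
    {y : α → ℝ} (hy : ∀ x, 0 < y x) : 0 ≤ rayDiff M y (φ i) (φ j) := by
  obtain ⟨ww, D, ts, hij, hj, h⟩ := h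
  let w : ℕ → ℝ := fun c => if h : c < m + 2 then y (φ ⟨c, h⟩) else 1
  have hw : ∀ t : Fin (m + 2), w t = y (φ t) := by
    intro t
    show (if h : (t : ℕ) < m + 2 then y (φ ⟨t, h⟩) else 1) = _
    rw [dif_pos t.2]
  have hw0 : ∀ c, 0 ≤ w c := by
    intro c
    show 0 ≤ (if h : c < m + 2 then y (φ ⟨c, h⟩) else 1)
    split_ifs
    · exact (hy _).le
    · exact zero_le_one
  rw [rayDiff_codes hφ hr hb hw i j]
  refine chk_sound hij hj ?_ h hw0
  intro c hc
  unfold codes at hc
  rw [List.mem_map] at hc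
  obtain ⟨s, _, rfl⟩ := hc
  exact D1b_c3 (m + 2) s

/-- **A labelled matroid on `m + 2` elements with certificates for a set of pairs which meets every orbit
of a set of automorphisms is Rayleigh.** -/
theorem isRayleigh_of_certs (hφ : Function.Injective φ) (hr : Set.range φ = M.E) {r : ℕ}
    {isb : ℕ → Bool} (hb : ∀ T : Finset (Fin (m + 2)), M.IsBase (φ '' (T : Set (Fin (m + 2)))) ↔
      T.card = r ∧ isb (msk T) = true) {ps : List (List ℕ)} {L : List (ℕ × ℕ)}
    (hps : ps.all (autOK (m + 2) r isb) = true)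
    (hL : ∀ x ∈ L, HasCert m r isb x.1 x.2) (hc : allCov (m + 2) ps L = true) :
    IsRayleigh M := by
  rw [isRayleigh_iff]
  rw [List.all_eq_true] at hps
  have key : ∀ i j : Fin (m + 2), i < j → ∀ y : α → ℝ, (∀ x, 0 < y x) →
      0 ≤ rayDiff M y (φ i) (φ j) := by
    intro i j hij y hy
    unfold allCov at hc
    rw [List.all_eq_true] at hc
    have h1 := hc j (List.mem_range.2 j.2)
    rw [List.all_eq_true] at h1
    have h2 := h1 i (List.mem_range.2 hij)
    unfold covers at h2
    rw [List.any_eq_true] at h2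
    obtain ⟨p, hp, h3⟩ := h2
    rw [List.any_eq_true] at h3
    obtain ⟨x, hx, h4⟩ := h3
    obtain ⟨σ, hσ, hσ'⟩ := exists_perm (hps p hp)
    have h5 := hL x hx
    have h6 := h5
    obtain ⟨_, _, _, hx1, hx2, _⟩ := h6
    let a : Fin (m + 2) := ⟨x.1, by omega⟩
    let b : Fin (m + 2) := ⟨x.2, hx2⟩
    have h7 : HasCert m r isb a b := h5
    have hb' : ∀ T : Finset (Fin (m + 2)), M.IsBase ((φ ∘ σ) '' (T : Set (Fin (m + 2)))) ↔
        T.card = r ∧ isb (msk T) = true := by
      intro T
      have h8 : (φ ∘ σ) '' (T : Set (Fin (m + 2))) =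
          φ '' ((T.image σ : Finset (Fin (m + 2))) : Set (Fin (m + 2))) := by
        rw [Finset.coe_image, Set.image_comp]
      rw [h8, hb, Finset.card_image_of_injective T σ.injective]
      constructor
      · rintro ⟨u, v⟩
        exact ⟨u, by rw [hσ' T u]; exact v⟩
      · rintro ⟨u, v⟩
        exact ⟨u, by rw [← hσ' T u]; exact v⟩
    have hr' : Set.range (φ ∘ σ) = M.E := by
      rw [σ.surjective.range_comp, hr]
    have h9 := rayDiff_nonneg_of_cert (hφ.comp σ.injective) hr' hb' h7 hy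
    have ha : (σ a : ℕ) = p.getD x.1 0 := hσ a
    have hb2 : (σ b : ℕ) = p.getD x.2 0 := hσ b
    rw [Bool.or_eq_true, Bool.and_eq_true, Bool.and_eq_true] at h4
    rcases h4 with ⟨u, v⟩ | ⟨u, v⟩
    · have u' := Nat.eq_of_beq_eq_true u
      have v' := Nat.eq_of_beq_eq_true v
      have e1 : σ a = i := Fin.ext (by rw [ha, u'])
      have e2 : σ b = j := Fin.ext (by rw [hb2, v'])
      have h10 : 0 ≤ rayDiff M y (φ (σ a)) (φ (σ b)) := h9
      rw [e1, e2] at h10
      exact h10
    · have u' := Nat.eq_of_beq_eq_true u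
      have v' := Nat.eq_of_beq_eq_true v
      have e1 : σ a = j := Fin.ext (by rw [ha, u'])
      have e2 : σ b = i := Fin.ext (by rw [hb2, v'])
      have h10 : 0 ≤ rayDiff M y (φ (σ a)) (φ (σ b)) := h9
      rw [e1, e2, rayDiff_comm] at h10
      exact h10
  intro e he f hf hef y hy
  rw [← hr] at he hf
  obtain ⟨i, rfl⟩ := he
  obtain ⟨j, rfl⟩ := hf
  rcases lt_trichotomy i j with h1 | h1 | h1
  · exact key i j h1 y hy
  · exact absurd (by rw [h1]) hef
  · rw [rayDiff_comm]
    exact key j i h1 y hy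

end main

end Pool.Agent.H75.RayN
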