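import Pool.Agent.H75.RayN.LabN
import Pool.Agent.H59.Ray.Elev

/-!
# The deletion of the element 1 of the matroid with eleven elements (MP_934449_co)

`cl`: codes of the bases; one certificate for each orbit of pairs.
-/

set_option autoImplicit false

namespace Pool.Agent.H75.RayN.D1

open Pool.Agent.H55.Ray
open Pool.Agent.H59.Ray (isb10 mskT)

def cl : List ℕ :=
  [40, 94, 112, 118, 120, 274, 280, 282, 328, 334, 336, 354, 360, 760, 766, 814, 820, 838, 840,
    846, 1000, 1002, 1008, 1054, 1056, 1062, 1080, 2200, 2218, 2226, 2272, 2278, 2296, 2298, 2304,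
    2434, 2440, 2442, 2458, 2466, 2512, 2514, 2520, 2538, 2920, 2926, 2944, 2946, 2952, 2998,
    3024, 3160, 3162, 3168, 3186, 3240, 6592, 6598, 6600, 6646, 6652, 6654, 6672, 6678, 6834,
    6840, 6888, 6894, 7318, 7320, 7326, 7372, 7374, 7380, 7398, 7560, 7614, 8752, 8758, 8760,
    8776, 8778, 8784, 8830, 8832, 8838, 8856, 8994, 9000, 9018, 9072, 9478, 9480, 9486, 9558,
    9720, 19696, 19720, 19722, 19768, 19774, 19792, 19794, 19800, 19930, 19936, 19938, 19954,
    19956, 19962, 20008, 20010, 20016, 20034, 20416, 20422, 20440, 20442, 20448, 20494, 20520,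
    20656, 20658, 20664, 20736, 21874, 21880, 21898, 21900, 21906, 22114, 22116, 22122, 22140,
    22600, 22626, 22842, 26248, 26254, 26256, 26272, 26274, 26326, 26328, 26334, 26352, 26490,
    26496, 26514, 26568, 26974, 26976, 26982, 27000, 27054, 27216, 28432, 28434, 28440, 28458,
    28674, 29160]

theorem codes_eq : codes 10 4 (isb10 1) = cl := by decide +kernel

def ts0_1 : List (ℕ × ℕ × List (ℕ × ℕ) × List (ℕ × ℕ)) :=
  [(22, 0, [(1, 31)], [(1, 975)]), (25, 0, [(1, 31)], [(1, 255)]), (22, 0, [(1, 31)], [(1, 327)]),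
    (22, 0, [(1, 255)], [(1, 271)]), (22, 0, [(1, 271)], [(1, 975)]), (22, 0, [(1, 271)], [(1,
    327)]), (10, 0, [(2, 31), (2, 271)], [(2, 255), (2, 327), (2, 975), (1, 2433)]), (3, 0, [(1,
    31), (1, 255)], []), (6, 0, [(1, 271)], [(1, 2433)]), (12, 0, [(1, 31), (3, 2433)], [(1,
    271)])]

theorem c0_1 : chk 8 18 cl 0 1 124 ts0_1 = true := by decide +kernel

theorem h0_1 : HasCert 8 4 (isb10 1) 0 1 :=
  ⟨18, 124, ts0_1, by norm_num, by norm_num, by rw [codes_eq]; exact c0_1⟩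

def ts0_3 : List (ℕ × ℕ × List (ℕ × ℕ) × List (ℕ × ℕ)) :=
  [(3, 0, [(1, 351), (1, 2997)], []), (24, 0, [(1, 973)], [(1, 2997)]), (26, 0, [(1, 975)], [(1,
    2217)]), (8, 0, [(1, 273), (3, 351), (2, 975), (2, 2217)], [(2, 973), (2, 2215), (1, 2917),
    (3, 2997)]), (8, 0, [(1, 975)], [(1, 2917)]), (12, 0, [(1, 273), (2, 973), (2, 975), (2,
    2215), (2, 2217), (1, 2917)], [(1, 351), (1, 2997)]), (26, 0, [(1, 973)], [(1, 2215)]), (36,
    3186, [(1, 1), (1, 3)], [(1, 81)]), (33, 0, [(1, 351)], [(1, 2997)]), (8, 0, [(1, 273)], [(1,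
    2215)]), (24, 0, [(1, 351)], [(1, 2217)])]

theorem c0_3 : chk 8 19 cl 0 3 144 ts0_3 = true := by decide +kernel

theorem h0_3 : HasCert 8 4 (isb10 1) 0 3 :=
  ⟨19, 144, ts0_3, by norm_num, by norm_num, by rw [codes_eq]; exact c0_3⟩

def ts0_4 : List (ℕ × ℕ × List (ℕ × ℕ) × List (ℕ × ℕ)) :=
  [(1, 0, [(1, 13)], [(1, 2215)]), (1, 0, [(1, 13)], [(1, 273)]), (3, 0, [(1, 93)], [(1, 273)]),
    (1, 0, [(1, 973)], [(1, 2217)]), (3, 0, [(1, 93)], [(1, 975)]), (2, 0, [(1, 13)], [(1, 273),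
    (1, 975), (1, 2215), (1, 2917)]), (3, 0, [(1, 91)], [(1, 2215)]), (3, 0, [(1, 253)], [(1,
    2199)]), (1, 0, [(1, 13)], [(1, 2917)]), (3, 0, [(1, 91)], [(1, 2917)]), (1, 0, [(1, 13)],
    [(1, 975)])]

theorem c0_4 : chk 8 14 cl 0 4 6 ts0_4 = true := by decide +kernel

theorem h0_4 : HasCert 8 4 (isb10 1) 0 4 :=
  ⟨14, 6, ts0_4, by norm_num, by norm_num, by rw [codes_eq]; exact c0_4⟩

def ts0_5 : List (ℕ × ℕ × List (ℕ × ℕ) × List (ℕ × ℕ)) :=
  [(1, 0, [(1, 13)], [(1, 2439)]), (1, 0, [(1, 91)], [(1, 2439)])]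

theorem c0_5 : chk 8 13 cl 0 5 2 ts0_5 = true := by decide +kernel

theorem h0_5 : HasCert 8 4 (isb10 1) 0 5 :=
  ⟨13, 2, ts0_5, by norm_num, by norm_num, by rw [codes_eq]; exact c0_5⟩

def ts0_6 : List (ℕ × ℕ × List (ℕ × ℕ) × List (ℕ × ℕ)) :=
  [(4, 0, [(1, 91)], [(1, 2199)]), (2, 0, [(1, 91), (1, 741), (2, 975), (2, 2269)], [(2, 253), (2,
    279), (2, 333), (2, 2199), (2, 2223), (2, 2439), (2, 2925)]), (20, 0, [(1, 91), (1, 253), (1,
    279), (1, 333), (1, 2269)], [(1, 741), (1, 975), (1, 2199), (1, 2223), (1, 2925)]), (15, 0,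
    [(1, 279)], [(1, 741)]), (4, 0, [(1, 333)], [(1, 741)]), (4, 0, [(1, 2269), (1, 2439)], []),
    (11, 0, [(1, 91), (1, 2223)], []), (4, 0, [(1, 253)], [(1, 741)]), (4, 0, [(1, 333)], [(1,
    975)]), (11, 0, [(1, 279), (1, 741)], []), (15, 0, [(1, 91)], [(1, 2223)]), (16, 0, [(1,
    253)], [(1, 2199)]), (4, 0, [(1, 91)], [(1, 2925)]), (16, 0, [(1, 333)], [(1, 2925)]), (20, 0,
    [(1, 975)], [(1, 2439)]), (24, 0, [(1, 2269)], [(1, 2439)]), (4, 0, [(1, 333), (1, 975)], [])]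

theorem c0_6 : chk 8 17 cl 0 6 56 ts0_6 = true := by decide +kernel

theorem h0_6 : HasCert 8 4 (isb10 1) 0 6 :=
  ⟨17, 56, ts0_6, by norm_num, by norm_num, by rw [codes_eq]; exact c0_6⟩

def ts0_7 : List (ℕ × ℕ × List (ℕ × ℕ) × List (ℕ × ℕ)) :=
  [(26523940224, 0, [(2, 13), (2, 37), (1, 93), (2, 253), (1, 999), (2, 2917)], [(1, 333), (2,
    739), (4, 741), (2, 2269), (2, 2277), (1, 2925), (3, 3159)]), (2135350866392, 0, [(2, 255),
    (1, 739), (1, 741), (1, 757), (1, 2917)], [(1, 333), (1, 999), (1, 3159)]), (5552378076696,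
    244, [(1, 12), (1, 108), (1, 2916)], []), (1567310772480, 0, [(1, 2439), (1, 2917)], []),
    (1341560558080, 0, [(1, 279), (1, 2925)], []), (2778885339312, 282, [(1, 81), (1, 729)], []),
    (4275613576952, 810, [(1, 12), (1, 28)], [(1, 270)]), (3198439669724, 4, [(1, 252), (1, 756)],
    [(1, 2268)]), (3935088654228, 334, [(1, 27), (1, 2187)], []), (3392274812490, 244, [(1, 36),
    (1, 2268)], [(1, 756)]), (1339344046188, 0, [(1, 279)], [(1, 739)]), (4830276575496, 246, [(1,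
    90), (1, 108), (1, 756)], []), (168498148288, 0, [(1, 255), (4, 279), (1, 333), (1, 999), (2,
    2439), (2, 2917)], [(2, 739), (1, 757), (1, 2925), (3, 3159)]), (3544344589150, 36, [(1, 84),
    (1, 730), (1, 732)], [(1, 324)]), (1933579069198, 36, [(1, 84), (1, 730)], [(1, 324), (1,
    732)]), (204062047280, 0, [(1, 255), (1, 739)], [(2, 2917), (2, 3159)]), (5717469667952, 0,
    [(1, 757)], [(1, 2511)]), (1055846899240, 0, [(2, 93), (1, 739), (1, 3159)], [(1, 255), (3,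
    333), (1, 741), (2, 757), (1, 2917)]), (185336031656, 0, [(1, 739)], [(1, 999)]),
    (1096465569792, 0, [(3, 13), (2, 37), (1, 93), (3, 253), (1, 255), (2, 739), (1, 741), (1,
    757), (2, 2925)], [(1, 109), (2, 999), (3, 2269), (2, 2277), (2, 2917), (1, 3159)]),
    (3716677782191, 2458, [(1, 9), (1, 729)], [(1, 81)]), (456519242934, 244, [(1, 36), (1, 108)],
    [(1, 2916)]), (911275450008, 4, [(1, 108)], [(1, 252), (1, 2916)]), (13654701588320, 2440,
    [(1, 81)], [(1, 729)]), (1685722147840, 2466, [(2, 81)], [(1, 729)]), (2389142714464, 1054,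
    [(1, 9), (1, 2187)], [(1, 27)]), (648338068858, 3024, [(1, 1)], [(1, 243)]), (583848215936, 0,
    [(1, 13), (1, 93), (1, 253), (1, 333), (1, 999), (1, 2439), (1, 3159)], [(1, 109), (1, 255),
    (1, 739), (1, 2269), (1, 2917)]), (1580743943761, 2458, [(1, 9), (1, 81)], [(1, 729)]),
    (1368645147264, 0, [(1, 13), (2, 37), (1, 109), (1, 253), (3, 279), (1, 739)], [(1, 333), (1,
    757), (1, 2269), (2, 2277), (2, 2925), (1, 3159)]), (2076777618054, 3024, [(1, 1), (1, 243)],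
    []), (530207540460, 0, [(1, 279), (1, 739)], []), (2053957435008, 0, [(1, 13), (1, 93), (1,
    253), (1, 255), (1, 333), (1, 2277), (1, 2439), (2, 2925)], [(1, 37), (2, 109), (1, 279), (2,
    999), (1, 2269), (1, 2917), (1, 3159)]), (606920260224, 0, [(1, 13), (1, 37), (1, 253)], [(1,
    2269), (1, 2277), (1, 3159)]), (42150753024, 0, [(1, 13), (1, 37), (1, 93), (1, 253), (1,
    999), (2, 2917)], [(1, 333), (1, 739), (3, 741), (1, 2269), (1, 2277), (1, 2925), (2, 3159)]),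
    (1447375577920, 0, [(2, 37), (2, 109), (2, 739), (1, 757), (1, 2917)], [(1, 93), (2, 333), (1,
    999), (2, 2277), (1, 2925)]), (6723018586112, 738, [(1, 28)], [(1, 270), (1, 2430)]),
    (433539271296, 0, [(1, 13), (3, 37), (2, 109), (1, 253), (1, 741), (1, 757)], [(3, 93), (1,
    999), (1, 2269), (3, 2277), (2, 2925)]), (616562726144, 0, [(3, 13), (3, 253), (3, 739), (1,
    2925)], [(3, 109), (1, 279), (2, 757), (1, 999), (3, 2269), (1, 2917), (1, 3159)]),
    (3898387934120, 0, [(1, 279)], [(1, 2917)]), (741795586804, 36, [(1, 84)], [(1, 324), (1,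
    730)]), (18714344069792, 36, [(1, 324)], [(1, 730)]), (791899187832, 0, [(1, 739)], [(1,
    3159)]), (1194571357232, 244, [(1, 756), (1, 2916)], [(1, 2268)]), (6757272670000, 0, [(1,
    255)], [(1, 3159)]), (1084459632512, 0, [(1, 13), (1, 37), (1, 253), (2, 757), (2, 999)], [(2,
    255), (1, 333), (3, 741), (1, 2269), (1, 2277), (2, 2917), (1, 2925), (2, 3159)]),
    (102641122304, 1008, [(1, 1), (1, 3)], []), (102641122304, 768, [(1, 1), (1, 243)], []),
    (93729528152, 0, [(2, 93), (1, 739), (1, 3159)], [(1, 255), (4, 333), (1, 741), (3, 757), (1,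
    2917)]), (99125571328, 0, [(3, 13), (3, 37), (3, 253), (1, 279), (1, 757)], [(1, 739), (3,
    2269), (3, 2277), (2, 2439), (2, 2917), (2, 2925), (1, 3159)]), (3532894125520, 846, [(1, 3),
    (1, 243)], []), (10285201408, 0, [(1, 37), (1, 109), (1, 999), (1, 2917)], [(1, 93), (2, 255),
    (2, 279), (3, 333), (1, 741), (1, 757), (1, 2277), (1, 3159)]), (586265508352, 0, [(2, 13),
    (1, 37), (2, 93), (2, 253), (1, 333), (2, 741), (1, 2917)], [(1, 109), (1, 757), (2, 999), (2,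
    2269), (1, 2277), (1, 3159)]), (5789026333148, 244, [(1, 12), (1, 756), (1, 2268)], [])]

theorem c0_7 : chk 8 56 cl 0 7 24934063314944 ts0_7 = true := by decide +kernel

theorem h0_7 : HasCert 8 4 (isb10 1) 0 7 :=
  ⟨56, 24934063314944, ts0_7, by norm_num, by norm_num, by rw [codes_eq]; exact c0_7⟩

def ts1_2 : List (ℕ × ℕ × List (ℕ × ℕ) × List (ℕ × ℕ)) :=
  [(1, 0, [(1, 31)], [(1, 2433)]), (1, 0, [(1, 733)], [(1, 2433)])]

theorem c1_2 : chk 8 13 cl 1 2 2 ts1_2 = true := by decide +kernel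

theorem h1_2 : HasCert 8 4 (isb10 1) 1 2 :=
  ⟨13, 2, ts1_2, by norm_num, by norm_num, by rw [codes_eq]; exact c1_2⟩

def ts1_3 : List (ℕ × ℕ × List (ℕ × ℕ) × List (ℕ × ℕ)) :=
  [(304673699600687673893300, 0, [(1, 39), (1, 273), (1, 325), (1, 351), (1, 999), (1, 2217), (1,
    2943)], [(2, 741), (1, 2997)]), (14328511553039714779152576, 0, [(1, 39), (2, 117), (1, 273),
    (1, 351), (2, 741), (2, 819), (3, 975)], [(3, 91), (2, 325), (3, 2191), (2, 2217), (3, 2269),
    (2, 2917), (2, 2943), (1, 2997)]), (42227482434163040893936374, 0, [(1, 13)], [(2, 271), (1,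
    973)]), (526793249887090264305936, 0, [(1, 13), (2, 819), (1, 975), (3, 999), (4, 2917), (3,
    2943), (1, 2997)], [(2, 39), (2, 91), (1, 273), (2, 325), (1, 351), (1, 741), (5, 973), (1,
    2191), (1, 2215), (2, 2217), (1, 2269)]), (8135657088846231840749896, 0, [(1, 91), (1, 973),
    (2, 999)], [(1, 819)]), (13009716236270012234292534, 0, [(3, 13), (1, 819), (2, 2997)], [(2,
    39), (2, 273), (2, 325), (2, 351), (1, 741), (2, 2217)]), (226291242756769265352858080, 28,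
    [(1, 12), (1, 2916)], [(1, 90)]), (22505385107700836814668856, 0, [(1, 39)], [(1, 2917)]),
    (27277080678964216418725280, 0, [(1, 117)], [(2, 2215), (1, 2943)]),
    (24974480033787893387243528, 0, [(1, 117), (2, 2917)], [(1, 999), (2, 2215), (2, 2943)]),
    (230228261323112759363610369, 28, [(1, 90), (1, 972), (1, 2916)], []),
    (1520336108069015182812420, 0, [(1, 13), (1, 117), (2, 973), (5, 999)], [(1, 91), (2, 271),
    (2, 819), (1, 2215), (2, 2943)]), (131159800411908814423365750, 730, [(1, 12), (1, 90)], [(1,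
    270)]), (7457451625821481268023588, 0, [(1, 13), (1, 39), (2, 325), (2, 973), (2, 2191), (1,
    2215), (2, 2217), (2, 2269), (1, 2917), (2, 2943)], [(1, 91), (1, 117), (3, 741), (1, 819),
    (2, 975)]), (28460043874324536307314856, 0, [(1, 13), (1, 91), (2, 819), (2, 2191), (2, 2269),
    (2, 2997)], [(2, 273), (2, 351), (1, 973), (2, 975)]), (14431493120203644874769284, 0, [(1,
    13)], [(4, 271)]), (78164167066258911340970551, 28, [(1, 90)], [(1, 972), (1, 2916)]),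
    (1641331933949771629978804, 0, [(4, 13), (2, 39), (1, 91), (2, 117), (1, 273), (3, 325), (1,
    351), (1, 819), (2, 2191), (3, 2217), (2, 2269), (1, 2917), (1, 2943)], [(2, 741), (1, 973),
    (2, 975), (1, 2997)]), (514595431166661730408412, 0, [(1, 13), (1, 117), (3, 741), (2, 975)],
    [(1, 39), (1, 91), (2, 325), (2, 2191), (2, 2217), (2, 2269)]), (5246328610984321543803376, 0,
    [(4, 13), (3, 39), (1, 91), (3, 325), (1, 999), (3, 2191), (3, 2217), (3, 2269), (1, 2943)],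
    [(2, 117), (2, 271), (1, 819), (3, 973), (3, 975)]), (9872361932860833175274916, 0, [(1, 13),
    (1, 91), (1, 2191), (1, 2269), (2, 2997)], [(3, 39), (2, 273), (1, 325), (2, 351), (1, 741),
    (1, 975), (1, 2217)]), (888773070781159173595692, 0, [(2, 13), (1, 39), (3, 325), (2, 973),
    (3, 2191), (1, 2215), (3, 2217), (3, 2269), (1, 2917), (3, 2943)], [(2, 91), (2, 117), (5,
    741), (1, 819), (3, 975)]), (32165120872792798228496892, 0, [(1, 39), (1, 91), (2, 117), (1,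
    273), (1, 325), (1, 351), (1, 999), (1, 2217)], [(1, 819), (1, 2997)]),
    (7227605390340266833874122, 0, [(1, 13), (1, 91), (2, 2191), (1, 2215), (2, 2269), (2, 2997)],
    [(2, 117), (2, 273), (2, 351), (1, 741), (2, 975)]), (39312962195945127434893954, 730, [(1,
    90), (1, 270)], [(1, 2214)]), (136236637018233987779053516, 1062, [(1, 1)], [(1, 27)]),
    (355472366789844320044316, 0, [(1, 13), (2, 91), (4, 2191), (3, 2215), (4, 2269), (1, 2943),
    (5, 2997)], [(1, 39), (6, 117), (5, 273), (1, 325), (5, 351), (2, 741), (4, 975), (1, 2217)]),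
    (6901441331501402200862272, 0, [(2, 13), (1, 39), (1, 741), (2, 819), (1, 2215), (3, 2997)],
    [(2, 117), (1, 271), (3, 273), (3, 325), (3, 351), (1, 973), (1, 999), (3, 2217), (1, 2943)]),
    (40871706173171408888073700, 0, [(1, 39), (2, 91), (1, 273), (1, 325), (1, 351), (1, 2217)],
    [(1, 2997)]), (182907715667814240826957752, 28, [(1, 12)], [(1, 972), (1, 2916)]),
    (2445042075774281837202544, 0, [(2, 13), (2, 39), (1, 325), (2, 2191), (1, 2217), (2, 2269),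
    (1, 2943), (1, 2997)], [(1, 91), (2, 117), (1, 273), (1, 351), (1, 741), (1, 819), (2, 975)]),
    (283853671078744970394318789, 730, [(1, 12), (1, 90), (1, 270)], []),
    (5107632178884324042940680, 0, [(3, 13), (2, 39), (1, 91), (2, 325), (1, 999), (2, 2191), (2,
    2217), (2, 2269), (1, 2943)], [(1, 117), (1, 271), (1, 819), (2, 973), (2, 975)]),
    (1477472298414239726978676, 0, [(2, 91), (1, 819), (2, 2917), (1, 2943)], [(1, 741), (1, 973),
    (5, 999)]), (52902442400015097844136754, 730, [(1, 12)], [(1, 270), (1, 2214)]),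
    (4353640462865607271719944, 0, [(1, 13), (1, 91), (1, 819), (1, 2917), (1, 2943)], [(1, 741),
    (2, 973), (1, 999), (1, 2215)]), (32124677478531202791706460, 0, [(1, 741)], [(2, 2917)]),
    (4256064748471143740533500, 0, [(2, 39), (1, 91), (1, 117), (2, 273), (3, 325), (2, 351), (2,
    999), (1, 2191), (3, 2217), (1, 2269), (1, 2917), (3, 2943)], [(6, 741), (1, 975), (2,
    2997)]), (88044715383214885767123064, 2430, [(1, 28), (1, 730)], [(1, 756)]),
    (5406993824297850074562304, 0, [(1, 117), (1, 973), (1, 999), (4, 2917)], [(1, 819), (5,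
    2215), (2, 2943)]), (725700215697514073082382, 0, [(1, 819)], [(4, 999)]),
    (4636499046335012124792648, 0, [(1, 13), (1, 39), (1, 741), (2, 819), (1, 2215), (2, 2997)],
    [(1, 117), (2, 273), (2, 325), (2, 351), (1, 973), (1, 999), (2, 2217), (1, 2943)]),
    (8420110602789575731769188, 0, [(1, 13), (1, 39), (1, 117), (2, 819)], [(1, 271), (4, 973),
    (2, 999), (3, 2943)]), (29609430367652858390694928, 2928, [(1, 1)], [(1, 27)]),
    (3235196914166530186260564, 0, [(1, 13), (1, 973), (3, 999), (1, 2917), (1, 2943)], [(1, 117),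
    (1, 271), (1, 741), (1, 819)]), (8017000496727781013011612, 0, [(1, 39), (1, 91), (1, 117),
    (1, 819)], [(1, 271), (1, 973), (3, 999), (1, 2215), (2, 2943)]), (19817228392396217155747580,
    0, [(1, 91), (1, 325), (1, 2191), (1, 2217), (1, 2269), (1, 2917), (1, 2943)], [(1, 117), (1,
    741), (1, 819), (1, 975)]), (6357433608577935719764784, 0, [(1, 13), (3, 819), (2, 2191), (1,
    2215), (2, 2269), (2, 2997)], [(3, 39), (1, 91), (2, 117), (2, 273), (2, 351), (2, 975)]),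
    (2615209720663148750205404, 0, [(1, 13), (2, 39), (2, 117), (1, 273), (1, 325), (1, 351), (3,
    819), (1, 2217), (2, 2917)], [(1, 91), (1, 271), (4, 741), (5, 973), (6, 999), (5, 2215), (1,
    2943), (1, 2997)]), (529512613807830627337150, 0, [(3, 13), (2, 819), (1, 2215), (2, 2943)],
    [(2, 39), (1, 91), (4, 117), (5, 973), (2, 999)]), (202689530851682944965233867, 730, [(1,
    12), (1, 270)], [(1, 90)])]

theorem c1_3 : chk 8 100 cl 1 3 461177069780856590403566944 ts1_3 = true := by decide +kernel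

theorem h1_3 : HasCert 8 4 (isb10 1) 1 3 :=
  ⟨100, 461177069780856590403566944, ts1_3, by norm_num, by norm_num, by rw [codes_eq]; exact c1_3⟩

def ts1_4 : List (ℕ × ℕ × List (ℕ × ℕ) × List (ℕ × ℕ)) :=
  [(34, 0, [(1, 13), (1, 2215)], []), (44, 28, [(1, 12), (1, 2916)], [(1, 90)]), (300, 0, [(1,
    39)], [(1, 271)]), (128, 0, [(1, 13), (1, 91), (2, 253), (1, 271), (1, 999)], [(1, 39), (1,
    117), (1, 2215), (2, 2223), (1, 2917)]), (768, 738, [(1, 244)], [(1, 2214)]), (300, 0, [(1,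
    117)], [(1, 271)]), (46, 0, [(1, 91)], [(1, 271)]), (300, 0, [(1, 39)], [(1, 999)]), (17, 0,
    [(1, 13), (1, 2917)], []), (300, 0, [(1, 117)], [(1, 999)]), (44, 0, [(1, 91)], [(1, 999)]),
    (68, 0, [(1, 13)], [(1, 999)]), (334, 0, [(1, 13)], [(1, 2215)]), (256, 738, [(1, 244), (1,
    2214)], []), (300, 0, [(1, 91)], [(1, 2215)]), (2, 0, [(1, 91), (1, 271)], []), (317, 0, [(1,
    13)], [(1, 2917)]), (44, 0, [(1, 39)], [(1, 2215)]), (339, 0, [(1, 91)], [(1, 2917)]), (88,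
    28, [(1, 12), (1, 972)], [(1, 2916)]), (64, 0, [(1, 271)], [(1, 741)]), (128, 0, [(2, 253),
    (1, 271), (2, 981), (1, 999)], [(1, 2215), (2, 2223), (1, 2917), (2, 2925)]), (14, 0, [(3,
    13), (3, 39), (3, 91), (3, 117)], [(2, 271), (2, 999), (2, 2215), (2, 2917)]), (39, 0, [(1,
    91), (1, 2917)], [])]

theorem c1_4 : chk 8 21 cl 1 4 1024 ts1_4 = true := by decide +kernel

theorem h1_4 : HasCert 8 4 (isb10 1) 1 4 :=
  ⟨21, 1024, ts1_4, by norm_num, by norm_num, by rw [codes_eq]; exact c1_4⟩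

def ts1_7 : List (ℕ × ℕ × List (ℕ × ℕ) × List (ℕ × ℕ)) :=
  [(2, 0, [(1, 37), (1, 91), (1, 253), (1, 739)], [(1, 2191)]), (1, 0, [(1, 37)], [(1, 2191)]),
    (3, 0, [(1, 37)], [(1, 2199)]), (3, 0, [(1, 253)], [(1, 741), (1, 2199)]), (1, 0, [(1, 253)],
    [(1, 2191)]), (1, 0, [(1, 739)], [(1, 2191)]), (1, 0, [(1, 91)], [(1, 2191)])]

theorem c1_7 : chk 8 14 cl 1 7 6 ts1_7 = true := by decide +kernel

theorem h1_7 : HasCert 8 4 (isb10 1) 1 7 :=
  ⟨14, 6, ts1_7, by norm_num, by norm_num, by rw [codes_eq]; exact c1_7⟩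

def ts3_4 : List (ℕ × ℕ × List (ℕ × ℕ) × List (ℕ × ℕ)) :=
  [(125, 0, [(2, 247), (1, 279), (2, 325), (4, 351), (1, 981), (1, 2197)], [(1, 975), (2, 2217),
    (2, 2223), (1, 2269), (4, 2919), (1, 2997)]), (5981, 0, [(2, 247), (1, 325), (2, 975), (1,
    2919), (1, 2997)], [(1, 279), (1, 351), (2, 2197), (1, 2217), (2, 2223)]), (12489, 0, [(1,
    247), (1, 325), (1, 351)], [(1, 2217), (1, 2223), (1, 2919)]), (377, 0, [(1, 247), (1, 975),
    (4, 981), (3, 2217)], [(3, 325), (1, 2197), (1, 2223), (4, 2269)]), (19021, 0, [(1, 325), (1,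
    2269)], [(1, 981), (1, 2217)]), (2543, 0, [(2, 325), (3, 351), (3, 2197), (2, 2269)], [(3,
    975), (2, 981), (2, 2217), (3, 2919)]), (7527, 0, [(1, 247), (1, 2997)], [(1, 279), (1,
    2223)]), (55878, 2268, [(1, 10), (1, 36)], [(1, 730)]), (2733, 0, [(3, 279), (1, 325), (2,
    351), (1, 975), (2, 981)], [(1, 2197), (1, 2217), (2, 2269), (2, 2919), (3, 2997)]), (941, 0,
    [(3, 247), (1, 325), (2, 2269), (1, 2919), (4, 2997)], [(4, 279), (1, 351), (2, 981), (1,
    2217), (3, 2223)]), (648, 0, [(2, 247), (2, 279), (1, 325), (1, 351), (3, 975), (3, 981)],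
    [(3, 2197), (1, 2217), (2, 2223), (3, 2269), (1, 2919), (2, 2997)])]

theorem c3_4 : chk 8 27 cl 3 4 55878 ts3_4 = true := by decide +kernel

theorem h3_4 : HasCert 8 4 (isb10 1) 3 4 :=
  ⟨27, 55878, ts3_4, by norm_num, by norm_num, by rw [codes_eq]; exact c3_4⟩

def ts3_7 : List (ℕ × ℕ × List (ℕ × ℕ) × List (ℕ × ℕ)) :=
  [(1, 0, [(1, 31)], [(1, 2269)]), (1, 0, [(1, 31)], [(1, 2917)]), (1, 0, [(1, 351)], [(1,
    2269)]), (1, 0, [(1, 351)], [(1, 2997)]), (1, 0, [(1, 765)], [(1, 2917)]), (1, 0, [(1, 765)],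
    [(1, 2997)]), (1, 0, [(1, 2197)], [(1, 2919)]), (1, 0, [(1, 2271)], [(1, 2431)]), (1, 0, [(1,
    2277)], [(1, 3159)])]

theorem c3_7 : chk 8 12 cl 3 7 2 ts3_7 = true := by decide +kernel

theorem h3_7 : HasCert 8 4 (isb10 1) 3 7 :=
  ⟨12, 2, ts3_7, by norm_num, by norm_num, by rw [codes_eq]; exact c3_7⟩

def ts4_7 : List (ℕ × ℕ × List (ℕ × ℕ) × List (ℕ × ℕ)) :=
  [(1, 0, [(1, 31)], [(1, 117)]), (1, 0, [(1, 271)], [(1, 765)]), (1, 0, [(1, 351)], [(1, 759)])]

theorem c4_7 : chk 8 13 cl 4 7 2 ts4_7 = true := by decide +kernel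

theorem h4_7 : HasCert 8 4 (isb10 1) 4 7 :=
  ⟨13, 2, ts4_7, by norm_num, by norm_num, by rw [codes_eq]; exact c4_7⟩

def ts7_9 : List (ℕ × ℕ × List (ℕ × ℕ) × List (ℕ × ℕ)) :=
  [(1, 0, [(1, 39)], [(1, 271)]), (1, 0, [(1, 39)], [(1, 2215)]), (1, 0, [(1, 271)], [(1, 759)]),
    (1, 0, [(1, 759)], [(1, 2457)]), (1, 0, [(1, 765)], [(1, 2215)]), (1, 0, [(1, 765)], [(1,
    2457)])]

theorem c7_9 : chk 8 13 cl 7 9 2 ts7_9 = true := by decide +kernel

theorem h7_9 : HasCert 8 4 (isb10 1) 7 9 :=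
  ⟨13, 2, ts7_9, by norm_num, by norm_num, by rw [codes_eq]; exact c7_9⟩

def ps : List (List ℕ) :=
  [[0, 1, 2, 3, 4, 5, 6, 7, 8, 9], [8, 6, 2, 3, 4, 5, 1, 9, 0, 7], [5, 1, 6, 3, 4, 0, 2, 9, 8, 7],
    [0, 2, 1, 3, 4, 8, 6, 9, 5, 7], [5, 6, 1, 3, 4, 8, 2, 7, 0, 9], [8, 2, 6, 3, 4, 0, 1, 7, 5,
    9]]

def prs : List (ℕ × ℕ) :=
  [(0, 1), (0, 3), (0, 4), (0, 5), (0, 6), (0, 7), (1, 2), (1, 3), (1, 4), (1, 7), (3, 4), (3, 7),
    (4, 7), (7, 9)]

theorem ps_ok : ps.all (autOK 10 4 (isb10 1)) = true := by decide +kernel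

theorem cov : allCov 10 ps prs = true := by decide +kernel

theorem prs_ok : ∀ x ∈ prs, HasCert 8 4 (isb10 1) x.1 x.2 := by
  intro x hx
  unfold prs at hx
  simp only [List.mem_cons, List.not_mem_nil, or_false] at hx
  rcases hx with rfl | rfl | rfl | rfl | rfl | rfl | rfl | rfl | rfl | rfl | rfl | rfl | rfl | rfl
  · exact h0_1
  · exact h0_3
  · exact h0_4
  · exact h0_5
  · exact h0_6
  · exact h0_7
  · exact h1_2
  · exact h1_3
  · exact h1_4
  · exact h1_7
  · exact h3_4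
  · exact h3_7
  · exact h4_7
  · exact h7_9

/-- **The deletion is Rayleigh.** -/
theorem del {α : Type*} [Fintype α] {M : Matroid α} {φ : Fin 10 → α}
    (hφ : Function.Injective φ) (hr : Set.range φ = M.E)
    (hb : ∀ T : Finset (Fin 10), M.IsBase (φ '' (T : Set (Fin 10))) ↔
      T.card = 4 ∧ isb10 1 (mskT T) = true) : IsRayleigh M :=
  isRayleigh_of_certs (m := 8) hφ hr hb ps_ok prs_ok cov

end Pool.Agent.H75.RayN.D1
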