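import Pool.Agent.H75.RayN.LabN
import Pool.Agent.H59.Ray.Elev

/-!
# The deletion of the element 2 of the matroid with eleven elements (MP_934449_co)

`cl`: codes of the bases; one certificate for each orbit of pairs.
-/

set_option autoImplicit false

namespace Pool.Agent.H75.RayN.D2

open Pool.Agent.H55.Ray
open Pool.Agent.H59.Ray (isb10 mskT)

def cl : List ℕ :=
  [40, 94, 112, 118, 120, 256, 274, 280, 328, 334, 336, 354, 360, 742, 766, 768, 814, 820, 838,
    840, 846, 976, 984, 1000, 1002, 1008, 1054, 1056, 1062, 1080, 2200, 2218, 2226, 2278, 2296,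
    2304, 2434, 2440, 2442, 2458, 2460, 2466, 2512, 2520, 2538, 2920, 2926, 2944, 2946, 2952,
    2998, 3024, 3160, 3162, 3168, 3186, 3240, 6574, 6592, 6598, 6600, 6646, 6652, 6654, 6672,
    6678, 6816, 6834, 6840, 6888, 6894, 7294, 7302, 7318, 7320, 7326, 7372, 7374, 7380, 7398,
    7536, 7560, 7614, 8752, 8758, 8760, 8776, 8778, 8784, 8830, 8838, 8856, 8994, 9000, 9018,
    9072, 9478, 9480, 9486, 9558, 9720, 19696, 19714, 19720, 19722, 19774, 19792, 19800, 19930,
    19936, 19938, 19954, 19956, 19962, 20008, 20016, 20034, 20416, 20422, 20440, 20442, 20448,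
    20494, 20520, 20656, 20658, 20664, 20736, 21880, 21898, 21906, 22114, 22122, 22140, 22600,
    22626, 22842, 26248, 26254, 26256, 26272, 26274, 26326, 26334, 26352, 26490, 26496, 26514,
    26568, 26974, 26976, 26982, 27000, 27054, 27216, 28432, 28440, 28458, 28674, 29160]

theorem codes_eq : codes 10 4 (isb10 2) = cl := by decide +kernel

def ts0_1 : List (ℕ × ℕ × List (ℕ × ℕ) × List (ℕ × ℕ)) :=
  [(2294136, 0, [(1, 13), (2, 37), (1, 271), (1, 739), (1, 973), (2, 2191), (1, 2215)], [(1, 85),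
    (1, 273), (1, 733), (2, 975)]), (978876, 0, [(1, 111), (1, 739)], []), (5052018, 0, [(1, 13),
    (1, 85)], [(1, 271), (1, 273), (1, 2215)]), (7797646, 0, [(1, 13), (3, 37), (2, 271), (1,
    973), (1, 2215)], [(2, 85), (2, 111), (1, 273), (1, 733), (2, 975), (1, 2191), (2, 2217)]),
    (2022078, 0, [(1, 13), (2, 85), (1, 111), (1, 975), (1, 2191), (3, 2217)], [(1, 37), (2, 271),
    (1, 273), (2, 733), (2, 973)]), (14520096, 0, [(1, 975)], [(1, 2217)]), (489438, 0, [(3, 13),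
    (2, 37), (1, 85), (1, 733), (2, 739), (2, 2191), (3, 2215)], [(1, 111), (1, 271), (3, 273),
    (1, 973), (1, 975), (1, 2217)]), (37248, 0, [(2, 13), (2, 37), (3, 733), (3, 739), (3, 2191),
    (4, 2215), (1, 2217)], [(2, 273), (1, 975)]), (393021, 0, [(3, 13), (1, 37), (2, 85), (1,
    733), (3, 739), (2, 2217)], [(2, 271), (3, 273), (1, 973), (1, 2215)]), (2160048, 0, [(2, 13),
    (1, 37), (1, 85), (1, 733), (1, 739), (1, 975), (2, 2191)], [(1, 271), (2, 273), (1, 973), (1,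
    2215), (1, 2217)]), (2001474, 0, [(1, 13), (1, 85)], [(1, 271), (1, 273), (1, 973)]),
    (3753114, 0, [(1, 13), (2, 85), (1, 975)], [(1, 37), (2, 271), (1, 273), (1, 733), (2, 739),
    (1, 973), (1, 2215)]), (29280, 0, [(3, 13), (1, 37), (2, 85), (3, 739), (1, 2217)], [(2, 271),
    (3, 273), (1, 973), (1, 2215)]), (826562, 0, [(1, 13), (3, 37), (2, 271), (1, 973), (1,
    2215)], [(2, 85), (1, 111), (1, 273), (1, 733), (2, 975), (1, 2191), (2, 2217)]), (1236990, 0,
    [(1, 13), (1, 85), (1, 733)], [(1, 271), (1, 273)]), (6691371, 0, [(3, 13), (1, 37), (2, 85),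
    (3, 733), (1, 739), (2, 2191)], [(2, 271), (3, 273), (1, 973), (2, 975), (1, 2215), (2,
    2217)]), (582960, 0, [(2, 13), (3, 85), (2, 733), (1, 973), (1, 975), (2, 2191), (2, 2217)],
    [(1, 37), (3, 271), (2, 273), (1, 739), (3, 2215)])]

theorem c0_1 : chk 8 38 cl 0 1 104533032 ts0_1 = true := by decide +kernel

theorem h0_1 : HasCert 8 4 (isb10 2) 0 1 :=
  ⟨38, 104533032, ts0_1, by norm_num, by norm_num, by rw [codes_eq]; exact c0_1⟩

def ts0_2 : List (ℕ × ℕ × List (ℕ × ℕ) × List (ℕ × ℕ)) :=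
  [(8, 0, [(1, 111), (1, 733)], []), (22, 0, [(1, 13)], [(1, 109)]), (84, 0, [(1, 13)], [(1,
    111)]), (1, 0, [(1, 109)], [(1, 2191)]), (2, 0, [(2, 13), (4, 111), (2, 247), (2, 2191), (4,
    2217)], [(1, 109), (2, 733)]), (1, 0, [(1, 109), (1, 2191)], []), (8, 0, [(1, 109)], [(1,
    733)]), (60, 0, [(1, 111)], [(1, 733)]), (52, 0, [(1, 733)], [(1, 2217)]), (16, 0, [(2, 13),
    (2, 247), (2, 733), (2, 2191)], [(3, 109), (1, 111), (1, 2217)]), (22, 0, [(1, 13), (1, 109)],
    [])]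

theorem c0_2 : chk 8 19 cl 0 2 200 ts0_2 = true := by decide +kernel

theorem h0_2 : HasCert 8 4 (isb10 2) 0 2 :=
  ⟨19, 200, ts0_2, by norm_num, by norm_num, by rw [codes_eq]; exact c0_2⟩

def ts0_3 : List (ℕ × ℕ × List (ℕ × ℕ) × List (ℕ × ℕ)) :=
  [(24, 0, [(1, 733)], [(1, 2997)]), (8, 0, [(1, 811)], [(1, 975)]), (12, 0, [(2, 109), (1, 273),
    (2, 351), (2, 733), (1, 811), (2, 975)], [(1, 2217), (1, 2997)]), (26, 0, [(1, 109)], [(1,
    733)]), (8, 0, [(1, 109)], [(1, 273)]), (3, 0, [(1, 2217), (1, 2997)], []), (8, 0, [(2, 109),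
    (2, 733), (1, 811), (3, 2997)], [(1, 273), (2, 351), (2, 975), (3, 2217)]), (26, 0, [(1,
    351)], [(1, 975)]), (36, 840, [(1, 1), (1, 243)], [(1, 2187)]), (24, 0, [(1, 351)], [(1,
    2217)]), (33, 0, [(1, 2217)], [(1, 2997)])]

theorem c0_3 : chk 8 19 cl 0 3 144 ts0_3 = true := by decide +kernel

theorem h0_3 : HasCert 8 4 (isb10 2) 0 3 :=
  ⟨19, 144, ts0_3, by norm_num, by norm_num, by rw [codes_eq]; exact c0_3⟩

def ts0_4 : List (ℕ × ℕ × List (ℕ × ℕ) × List (ℕ × ℕ)) :=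
  [(1, 0, [(1, 93)], [(1, 109)]), (2, 0, [(1, 93)], [(1, 109), (1, 273), (1, 811), (1, 975)]), (3,
    0, [(1, 13)], [(1, 333)]), (1, 0, [(1, 93)], [(1, 273)]), (1, 0, [(1, 93)], [(1, 811)]), (1,
    0, [(1, 273)], [(1, 811)]), (1, 0, [(1, 93)], [(1, 975)])]

theorem c0_4 : chk 8 14 cl 0 4 6 ts0_4 = true := by decide +kernel

theorem h0_4 : HasCert 8 4 (isb10 2) 0 4 :=
  ⟨14, 6, ts0_4, by norm_num, by norm_num, by rw [codes_eq]; exact c0_4⟩

def ts0_5 : List (ℕ × ℕ × List (ℕ × ℕ) × List (ℕ × ℕ)) :=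
  [(1, 0, [(1, 93)], [(1, 253)]), (1, 0, [(1, 93)], [(1, 2197)])]

theorem c0_5 : chk 8 13 cl 0 5 2 ts0_5 = true := by decide +kernel

theorem h0_5 : HasCert 8 4 (isb10 2) 0 5 :=
  ⟨13, 2, ts0_5, by norm_num, by norm_num, by rw [codes_eq]; exact c0_5⟩

def ts0_9 : List (ℕ × ℕ × List (ℕ × ℕ) × List (ℕ × ℕ)) :=
  [(17185000822235263124188917, 2442, [(1, 27), (1, 1), (1, 729)], []),
    (6884034915488193003697940, 246, [(1, 108), (1, 82)], [(1, 2214)]), (219031115583628791065646,
    0, [(2, 255), (1, 93), (2, 13), (1, 2439), (1, 2431), (2, 2197), (1, 819), (1, 2925)], [(1,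
    39), (1, 111), (2, 351), (2, 325), (3, 2217), (1, 2191), (1, 813), (2, 1053), (2, 2919)]),
    (1540046849414925972706741, 246, [(1, 82)], [(1, 2214), (1, 2188)]),
    (31264047356837761065986182, 274, [(1, 81)], [(1, 2187)]), (3572959515929571879779951, 336,
    [(1, 27), (1, 1)], [(1, 729)]), (123332819066243833661431, 0, [(1, 93), (3, 2457), (1, 2431)],
    [(1, 2439), (2, 1053)]), (4768702194423525371386569, 246, [(1, 82), (1, 810), (1, 2916)], []),
    (8316813586236994485730804, 0, [(1, 279), (1, 351), (1, 2439), (1, 2431), (1, 981)], [(1, 93),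
    (1, 13), (1, 91), (1, 2197)]), (17819314075533140428891800, 2442, [(1, 27), (1, 1)], [(1,
    729)]), (7214039367360114570407035, 0, [(1, 13)], [(1, 2191), (1, 981)]),
    (41839035112688517108731052, 36, [(1, 84)], [(1, 2430)]), (11079007907383926095441754, 0, [(1,
    255), (1, 279), (1, 2439), (1, 2457), (1, 981)], [(1, 111), (1, 325), (1, 91), (1, 2217), (1,
    2191), (1, 2431), (1, 813), (1, 1053), (1, 2919)]), (443936351929266957249256, 0, [(3, 255),
    (2, 93), (1, 2439), (2, 2197), (4, 981), (1, 819)], [(3, 351), (1, 13), (3, 325), (3, 2217),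
    (2, 2457), (2, 2191), (4, 2431), (3, 813), (3, 2919)]), (13531152307937456935668836, 252, [(1,
    2188)], [(1, 810)]), (18066685634268875866862749, 2442, [(1, 27), (1, 729)], [(1, 1)]),
    (4768702194423525371386569, 0, [(1, 813), (1, 3159)], []), (596033639767164975097200, 0, [(1,
    2191)], [(1, 813)]), (6004836026468721524417784, 0, [(1, 2431)], [(1, 1053)]),
    (187457679322027022262864, 0, [(1, 255), (3, 39), (1, 279), (2, 93), (3, 111), (3, 13), (2,
    2217), (3, 2191)], [(1, 325), (1, 91), (1, 2439), (3, 2197), (2, 981), (1, 2919), (3, 2925)]),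
    (6894065063635857472523958, 0, [(1, 2191)], [(1, 1053)]), (6094184992852431277740529, 0, [(1,
    93), (1, 2457)], [(1, 2439)]), (21257124552176713303310894, 12, [(1, 2188)], [(1, 810)]),
    (242699086193164187528754, 0, [(1, 255), (1, 13), (2, 2439), (1, 2197)], [(1, 93), (4, 111),
    (1, 351), (1, 325), (1, 2217), (4, 2191), (2, 2431), (2, 813), (2, 1053), (1, 2919)]),
    (114078915294473836077144, 0, [(1, 255), (3, 13), (2, 91), (2, 2439), (1, 2197), (2, 819)],
    [(2, 279), (1, 93), (3, 351), (1, 325), (1, 2217), (1, 2457), (1, 2431), (2, 981), (2, 813),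
    (2, 1053), (1, 2919)]), (3486633769399276242722586, 0, [(1, 255), (1, 39), (1, 279), (2, 13),
    (1, 2439)], [(1, 325), (1, 91), (1, 2197), (1, 981), (1, 2919), (1, 2925)]),
    (467255064845400195052818, 0, [(2, 255), (2, 93), (2, 2197), (2, 981), (1, 819), (1, 2925)],
    [(1, 39), (2, 351), (2, 325), (3, 2217), (1, 2457), (4, 2191), (2, 2919)]),
    (988067305309666134804834, 0, [(1, 255), (3, 39), (1, 279), (1, 93), (1, 111), (2, 2217), (2,
    2191), (1, 981), (2, 813)], [(1, 325), (1, 91), (1, 2197), (2, 819), (1, 2919), (3, 2925)]),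
    (11760710382774303996494089, 246, [(1, 82), (1, 2214)], [(1, 2916)]),
    (4616426552762073817688041, 0, [(1, 85)], [(1, 1053)]), (5903029517307104653607389, 246, [(1,
    810)], [(2, 2916)]), (41328924206360384706061128, 1002, [(1, 81)], [(1, 2187)]),
    (1817326068679648136042191, 246, [(1, 108), (1, 82)], [(1, 2916)]), (345954294735575946368958,
    0, [(2, 255), (2, 39), (1, 279), (1, 111), (2, 2439), (1, 2191), (2, 981)], [(1, 351), (2,
    325), (1, 91), (1, 2431), (1, 2197), (2, 813), (1, 1053), (2, 2919), (2, 2925)]),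
    (25034093409262137011003420, 336, [(1, 27)], [(1, 1), (1, 729)]), (64860198192889307128020, 0,
    [(2, 255), (3, 39), (3, 279), (3, 111), (1, 351), (1, 13), (2, 2439), (1, 2217), (1, 981)],
    [(2, 325), (3, 91), (1, 2191), (2, 2431), (2, 2197), (2, 819), (2, 2919), (3, 2925)]),
    (438748464972894448801008, 0, [(1, 255), (2, 93), (3, 2197), (1, 981), (2, 2925)], [(2, 39),
    (1, 111), (1, 351), (1, 325), (1, 2439), (3, 2217), (1, 2431), (1, 813), (1, 1053), (1,
    2919)]), (159878287836099858381466, 0, [(1, 255), (3, 279), (2, 351), (1, 2439), (2, 2457),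
    (1, 981)], [(1, 111), (1, 325), (3, 91), (1, 2217), (2, 2191), (2, 2431), (1, 2197), (2, 813),
    (2, 1053), (1, 819), (1, 2919)]), (1463909028584200195857477, 246, [(1, 108)], [(1, 82), (1,
    2188)]), (9517227603840722106158, 0, [(1, 279), (1, 351), (4, 85), (1, 2439), (3, 2457), (2,
    2431), (1, 2197)], [(1, 93), (1, 91), (3, 813), (4, 1053), (2, 819)]),
    (2840631537163539540726506, 246, [(1, 108), (1, 2214)], [(1, 82)]),
    (7756639181618083433150974, 0, [(1, 2197)], [(1, 819)]), (1572000952595952704896092, 0, [(2,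
    255), (1, 93), (1, 13), (1, 91), (1, 2439), (2, 2197), (1, 981), (1, 819)], [(1, 279), (1,
    111), (3, 351), (2, 325), (2, 2217), (1, 2457), (1, 2191), (1, 2431), (1, 813), (1, 1053), (2,
    2919)]), (6186547327286577194968556, 0, [(1, 255), (1, 13), (1, 2439), (1, 2197)], [(1, 351),
    (1, 325), (1, 2217), (1, 2457), (1, 2191), (1, 2431), (1, 1053), (1, 2919)]),
    (1575797911195293251627878, 0, [(1, 2431), (1, 1053)], []), (951539405227791755843410, 0, [(1,
    255), (2, 279), (1, 351), (2, 2439), (1, 2457), (1, 2197), (3, 981), (1, 1053)], [(1, 93), (2,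
    13), (1, 325), (2, 91), (1, 2217), (1, 2191), (1, 813), (2, 819), (1, 2919)]),
    (13551186362547157374104441, 10, [(1, 84)], [(1, 2430)]), (21016221125029787630105053, 246,
    [(1, 108), (1, 2214), (1, 2916)], []), (2268654645767158564441640, 246, [(1, 108)], [(1, 810),
    (1, 2916)]), (3799503101501456698370046, 0, [(1, 255), (2, 39), (1, 279), (2, 93), (1, 13),
    (1, 2217)], [(1, 325), (1, 91), (1, 2439), (1, 2197), (1, 819), (1, 2919), (2, 2925)]),
    (9988407911368862818556336, 738, [(1, 84)], [(1, 2430)]), (31608304273737272797148953, 336,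
    [(1, 27), (1, 729)], [(1, 1)]), (4584507649256001913724952, 0, [(1, 255), (1, 93), (1, 111),
    (1, 13), (2, 819)], [(1, 351), (1, 325), (1, 2217), (1, 2191), (1, 2431), (1, 2197), (1, 813),
    (1, 1053), (1, 2919)]), (430489636564418932908630, 0, [(3, 255), (1, 93), (2, 91), (2, 2439),
    (2, 2191), (2, 2197), (3, 981), (4, 819), (1, 2925)], [(1, 39), (2, 279), (2, 111), (5, 351),
    (3, 325), (4, 2217), (3, 2457), (1, 2431), (2, 813), (4, 1053), (3, 2919)]),
    (39141563518870106964836, 0, [(2, 255), (2, 279), (3, 93), (1, 2457), (1, 2431), (1, 2197),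
    (3, 981)], [(1, 13), (2, 325), (2, 91), (1, 2439), (2, 2217), (1, 2191), (3, 813), (2, 1053),
    (1, 819), (2, 2919)]), (2078209592467769642289362, 0, [(1, 255), (1, 279), (1, 2439), (1,
    2457), (1, 981)], [(1, 325), (1, 91), (1, 2217), (1, 2191), (1, 2431), (1, 813), (1, 1053),
    (1, 2919)]), (2581575043332327959671920, 0, [(1, 39), (1, 93), (3, 111), (1, 13), (1, 91), (1,
    2217), (1, 2197)], [(1, 279), (1, 351), (1, 2439), (3, 2457), (2, 2431), (1, 981), (1, 813),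
    (2, 1053), (1, 819), (1, 2925)]), (346867656676205843823519, 0, [(1, 13), (3, 2191), (2,
    2197), (8, 813)], [(1, 2431), (1, 981), (2, 819)]), (822538105341486479539350, 0, [(3, 255),
    (2, 39), (3, 279), (1, 93), (1, 111), (1, 13), (2, 2439), (2, 2457), (2, 2431), (2, 981)],
    [(3, 325), (3, 91), (1, 2217), (2, 813), (2, 819), (3, 2919), (2, 2925)]),
    (1698369744768158740495962, 0, [(1, 279), (1, 351), (1, 2439), (2, 2457), (1, 981), (1,
    1053)], [(1, 93), (1, 111), (1, 13), (1, 91), (1, 813), (1, 819)]),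
    (10243791631158051478926068, 336, [(1, 27), (1, 1)], []), (9455762438080842297151943, 246,
    [(1, 108)], [(1, 82), (1, 2214)]), (1088694566951180123249940, 0, [(2, 255), (4, 39), (3,
    279), (4, 111), (1, 351), (1, 13), (2, 2439), (2, 2217), (1, 981)], [(2, 325), (3, 91), (2,
    2191), (2, 2431), (3, 2197), (2, 819), (2, 2919), (4, 2925)]), (210122168958558233336258, 0,
    [(2, 255), (3, 39), (1, 111), (5, 13), (1, 91), (2, 2439), (1, 2217), (1, 2197)], [(1, 279),
    (3, 351), (2, 325), (1, 2191), (1, 2431), (3, 981), (1, 813), (2, 1053), (1, 819), (2, 2919),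
    (3, 2925)]), (7667117339142072916709226, 0, [(1, 279), (1, 351)], [(1, 91), (1, 819)]),
    (5403786795031490339616042, 246, [(1, 82)], [(1, 2214), (1, 2916)]),
    (821962562352116436440997, 0, [(1, 813)], [(1, 1053)]), (1262431060859608665443252, 0, [(2,
    255), (3, 39), (1, 279), (4, 93), (2, 13), (1, 2217)], [(1, 351), (2, 325), (1, 91), (2,
    2439), (1, 2457), (1, 2197), (1, 819), (2, 2919), (3, 2925)]), (24712609071293663798835642,
    246, [(1, 108), (1, 82), (1, 2214)], []), (65878817086510807281128571, 0, [(1, 85)], [(1,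
    3159)])]

theorem c0_9 : chk 8 97 cl 0 9 70647519280934332652515140 ts0_9 = true := by decide +kernel

theorem h0_9 : HasCert 8 4 (isb10 2) 0 9 :=
  ⟨97, 70647519280934332652515140, ts0_9, by norm_num, by norm_num, by rw [codes_eq]; exact c0_9⟩

def ts1_2 : List (ℕ × ℕ × List (ℕ × ℕ) × List (ℕ × ℕ)) :=
  [(8, 0, [(1, 327), (1, 2191)], []), (22, 0, [(1, 13)], [(1, 325)]), (84, 0, [(1, 13)], [(1,
    327)]), (16, 0, [(2, 13), (2, 31), (2, 733), (2, 2191)], [(3, 325), (1, 327), (1, 975)]), (1,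
    0, [(1, 31)], [(1, 325)]), (2, 0, [(2, 13), (2, 31), (4, 327), (2, 733), (4, 975)], [(1, 325),
    (2, 2191)]), (1, 0, [(1, 31), (1, 325)], []), (8, 0, [(1, 325)], [(1, 2191)]), (60, 0, [(1,
    327)], [(1, 2191)]), (22, 0, [(1, 13), (1, 325)], []), (52, 0, [(1, 975)], [(1, 2191)])]

theorem c1_2 : chk 8 19 cl 1 2 200 ts1_2 = true := by decide +kernel

theorem h1_2 : HasCert 8 4 (isb10 2) 1 2 :=
  ⟨19, 200, ts1_2, by norm_num, by norm_num, by rw [codes_eq]; exact c1_2⟩

def ts1_3 : List (ℕ × ℕ × List (ℕ × ℕ) × List (ℕ × ℕ)) :=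
  [(72, 0, [(1, 13)], [(1, 271)]), (24, 0, [(1, 2191)], [(1, 2997)]), (72, 0, [(1, 13)], [(1,
    973)]), (3, 0, [(1, 975), (1, 2997)], []), (8, 0, [(1, 273), (2, 351), (3, 975), (2, 2217)],
    [(2, 325), (2, 2191), (1, 2269), (3, 2997)]), (72, 0, [(1, 819)], [(1, 973)]), (72, 0, [(1,
    819)], [(1, 999)]), (72, 0, [(1, 117)], [(1, 2215)]), (8, 0, [(1, 2217)], [(1, 2269)]), (12,
    0, [(1, 273), (2, 325), (2, 351), (2, 2191), (2, 2217), (1, 2269)], [(1, 975), (1, 2997)]),
    (26, 0, [(1, 325)], [(1, 2191)]), (72, 0, [(1, 117)], [(1, 2943)]), (26, 0, [(1, 351)], [(1,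
    2217)]), (36, 2514, [(1, 1), (1, 27)], [(1, 729)]), (72, 0, [(1, 741)], [(1, 2917)]), (72, 0,
    [(1, 741)], [(1, 2943)]), (33, 0, [(1, 975)], [(1, 2997)]), (8, 0, [(1, 273)], [(1, 325)]),
    (24, 0, [(1, 351)], [(1, 975)])]

theorem c1_3 : chk 8 18 cl 1 3 144 ts1_3 = true := by decide +kernel

theorem h1_3 : HasCert 8 4 (isb10 2) 1 3 :=
  ⟨18, 144, ts1_3, by norm_num, by norm_num, by rw [codes_eq]; exact c1_3⟩

def ts1_4 : List (ℕ × ℕ × List (ℕ × ℕ) × List (ℕ × ℕ)) :=
  [(1, 0, [(1, 13)], [(1, 117)])]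

theorem c1_4 : chk 8 12 cl 1 4 2 ts1_4 = true := by decide +kernel

theorem h1_4 : HasCert 8 4 (isb10 2) 1 4 :=
  ⟨12, 2, ts1_4, by norm_num, by norm_num, by rw [codes_eq]; exact c1_4⟩

def ts1_7 : List (ℕ × ℕ × List (ℕ × ℕ) × List (ℕ × ℕ)) :=
  [(1, 0, [(1, 91)], [(1, 255)]), (1, 0, [(1, 255)], [(1, 739)])]

theorem c1_7 : chk 8 12 cl 1 7 2 ts1_7 = true := by decide +kernel

theorem h1_7 : HasCert 8 4 (isb10 2) 1 7 :=
  ⟨12, 2, ts1_7, by norm_num, by norm_num, by rw [codes_eq]; exact c1_7⟩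

def ts2_3 : List (ℕ × ℕ × List (ℕ × ℕ) × List (ℕ × ℕ)) :=
  [(835727476, 0, [(1, 91), (1, 325), (1, 351)], [(1, 813), (1, 819), (1, 2215), (1, 2997)]),
    (91791756, 0, [(3, 91), (1, 325), (1, 2215), (2, 2269), (1, 2943), (1, 2997)], [(2, 111), (2,
    117), (1, 351), (1, 813)]), (1121021829, 28, [(1, 90), (1, 732), (1, 2916)], []), (846663448,
    0, [(1, 31), (1, 117)], []), (148552716, 0, [(2, 31), (3, 111), (2, 117), (1, 351), (2, 733),
    (2, 813)], [(2, 325), (1, 819), (3, 2269), (1, 2997)]), (8783336, 0, [(2, 91), (1, 111), (2,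
    325), (3, 351)], [(2, 813), (3, 819), (2, 2215), (1, 2269), (3, 2997)]), (14575644, 0, [(1,
    31), (1, 733), (1, 819), (7, 2943)], [(2, 117), (2, 973), (2, 999), (2, 2215)]), (179525540,
    0, [(1, 325), (1, 351)], [(1, 813), (1, 819), (1, 2997)]), (748498780, 0, [(1, 819)], [(1,
    973)]), (343738384, 0, [(2, 91), (1, 325), (1, 2215), (2, 2269), (1, 2943), (1, 2997)], [(2,
    111), (2, 117), (1, 351), (1, 813)]), (290324800, 1062, [(1, 1)], [(1, 27)]), (1238939576, 0,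
    [(1, 111), (1, 351), (1, 2215)], [(1, 2269), (1, 2997)]), (1062959808, 2278, [(1, 27), (1,
    729)], []), (198495184, 0, [(3, 31), (3, 117), (1, 325), (1, 351), (3, 733), (2, 973)], [(1,
    91), (1, 813), (2, 819), (3, 2215), (4, 2943), (1, 2997)]), (68229932, 0, [(1, 31), (1, 733),
    (1, 813), (2, 2215), (1, 2269), (2, 2997)], [(2, 91), (1, 111), (1, 117), (1, 325), (2,
    351)]), (24620876, 0, [(3, 111), (1, 117), (2, 325), (5, 351), (2, 973), (2, 999)], [(2, 813),
    (3, 819), (3, 2269), (5, 2997)]), (588958900, 0, [(2, 31), (1, 111), (2, 733), (1, 813)], [(2,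
    91), (1, 325), (1, 2269)]), (3933401649, 28, [(1, 90)], [(1, 972), (1, 2916)]), (225218640, 0,
    [(2, 111), (1, 117), (2, 813), (2, 819)], [(2, 325), (1, 999), (2, 2269)]), (1888638505, 28,
    [(1, 90), (1, 2916)], [(1, 732)]), (69092840, 0, [(2, 91), (2, 117), (1, 325), (3, 819), (1,
    2269)], [(1, 111), (1, 813), (4, 973), (4, 999), (3, 2215), (3, 2943)]), (539310876, 0, [(1,
    117), (2, 325), (2, 351), (1, 973), (1, 999)], [(2, 813), (1, 819), (1, 2215), (1, 2943), (2,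
    2997)]), (14056244, 0, [(3, 31), (1, 325), (1, 351), (3, 733), (1, 999), (7, 2943)], [(1,
    117), (1, 813), (3, 973), (5, 2215), (1, 2997)]), (1092042236, 0, [(1, 819)], [(1, 999)]),
    (3449216849, 28, [(1, 90), (1, 972)], [(1, 2916)])]

theorem c2_3 : chk 8 44 cl 2 3 6175562032 ts2_3 = true := by decide +kernel

theorem h2_3 : HasCert 8 4 (isb10 2) 2 3 :=
  ⟨44, 6175562032, ts2_3, by norm_num, by norm_num, by rw [codes_eq]; exact c2_3⟩

def ts2_4 : List (ℕ × ℕ × List (ℕ × ℕ) × List (ℕ × ℕ)) :=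
  [(15212054895307272, 0, [(1, 31)], [(1, 117)]), (253363205162534, 0, [(2, 13), (2, 31), (1,
    271), (2, 733), (2, 741), (1, 759), (1, 999)], [(2, 279), (2, 973), (1, 2215), (2, 2223), (1,
    2917), (1, 2943)]), (437485159852060, 0, [(1, 13), (3, 2197), (2, 2223), (2, 2917)], [(1, 31),
    (1, 271), (1, 279), (1, 733), (2, 741), (1, 759), (1, 819), (1, 973), (3, 981), (1, 999), (1,
    2943)]), (2244325460976848, 0, [(3, 13), (1, 31), (1, 741), (3, 759), (2, 2197)], [(2, 271),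
    (3, 279), (2, 973), (2, 981), (1, 999), (1, 2223), (1, 2943)]), (390965392964242, 0, [(2, 13),
    (1, 733), (1, 759), (2, 2197), (3, 2917), (1, 2943)], [(2, 271), (2, 279), (2, 981)]),
    (2619345104820, 0, [(2, 91)], [(1, 973)]), (34166697121310564, 0, [(1, 91)], [(1, 271)]),
    (558331008982012, 0, [(1, 117)], [(1, 271)]), (319511165535088, 0, [(1, 733), (2, 741), (4,
    819), (2, 981)], [(2, 2197), (2, 2223), (3, 2943)]), (1165970996938280, 0, [(1, 13), (2, 31),
    (1, 271), (4, 741), (1, 973), (3, 981)], [(1, 279), (3, 999), (3, 2197), (4, 2223), (3, 2917),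
    (3, 2943)]), (2449755634423610, 0, [(1, 31), (1, 733), (2, 2197), (2, 2223), (2, 2917), (1,
    2943)], [(1, 271), (2, 741), (1, 973), (2, 981), (1, 999), (1, 2215)]), (77663013331872808,
    738, [(1, 4)], [(1, 270)]), (2875198876686144, 0, [(2, 13), (1, 31), (1, 741), (2, 999), (1,
    2197), (1, 2215)], [(1, 271), (2, 279), (1, 973), (1, 981), (1, 2223)]), (34161458431100924,
    0, [(1, 91)], [(1, 973)]), (349246013976, 0, [(2, 31), (4, 271), (1, 759), (4, 973), (1,
    2917)], [(3, 91), (2, 117)]), (4026402790620044, 0, [(1, 13), (1, 759), (1, 2197)], [(1, 271),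
    (1, 279), (1, 973), (1, 981)]), (37287022116970334, 28, [(1, 90), (1, 732), (1, 972)], []),
    (4605916192314230, 0, [(1, 733), (2, 2917), (2, 2943)], [(2, 819)]), (2115075777734048, 0,
    [(2, 13), (3, 2197), (1, 2223), (1, 2917), (3, 2943)], [(1, 271), (2, 279), (1, 741), (2,
    759), (1, 973), (3, 981)]), (6175287238826180, 0, [(2, 819)], [(1, 2943)]), (185924352489368,
    0, [(1, 13), (1, 271), (2, 741), (2, 759), (1, 981)], [(2, 117), (1, 279), (1, 733), (1, 973),
    (1, 2197), (2, 2223), (1, 2917), (1, 2943)]), (13510166568688504, 120, [(1, 1)], [(1, 729)]),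
    (645091249011578, 0, [(2, 13), (1, 31), (2, 741), (2, 759)], [(1, 271), (2, 279), (1, 733),
    (1, 973), (1, 2215), (2, 2223), (1, 2917)]), (16486529737950141, 28, [(1, 90), (1, 2916)],
    [(1, 972)]), (118279051137592, 0, [(3, 13), (3, 31), (3, 741), (1, 759), (2, 999), (1, 2215),
    (1, 2943)], [(1, 117), (3, 271), (3, 279), (3, 2223), (3, 2917)]), (19036161919620, 0, [(3,
    13), (2, 733), (1, 741), (1, 759), (1, 999), (2, 2197), (1, 2917)], [(1, 117), (1, 271), (3,
    279), (2, 981), (2, 2215), (1, 2223), (1, 2943)]), (7091306389452611, 94, [(1, 27), (1, 729)],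
    []), (275208504839716, 0, [(2, 13), (2, 271), (3, 741), (2, 759), (1, 981)], [(2, 117), (2,
    279), (1, 733), (1, 973), (1, 2197), (3, 2223), (1, 2917), (1, 2943)]), (464369350967954, 0,
    [(2, 13), (2, 31), (1, 271), (2, 741), (1, 999)], [(2, 279), (1, 733), (2, 2223), (1, 2917),
    (1, 2943)]), (77663013331872808, 10, [(1, 732)], [(1, 2214)]), (782341797473044, 0, [(2, 13),
    (4, 31), (3, 741), (1, 759), (1, 981), (1, 999), (1, 2917)], [(1, 117), (1, 271), (2, 279),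
    (1, 733), (2, 973), (1, 2197), (3, 2223), (1, 2943)]), (7876373864476592, 0, [(1, 31), (1,
    759)], [(1, 117)]), (1198761407366052, 0, [(1, 13), (2, 31), (3, 733), (2, 741), (3, 759), (2,
    973), (1, 981), (1, 2215)], [(5, 117), (1, 271), (1, 279), (2, 819), (1, 2197), (2, 2223)]),
    (772597952043252, 0, [(3, 13), (2, 31), (3, 741), (3, 759)], [(1, 271), (3, 279), (2, 733),
    (1, 973), (2, 2215), (3, 2223), (1, 2917)]), (228519586023180, 0, [(2, 13), (1, 31), (2, 759),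
    (2, 2197)], [(1, 271), (2, 279), (1, 973), (2, 981)]), (77663013331872808, 36, [(1, 972)],
    [(1, 2188)]), (14564033339868365, 28, [(1, 90)], [(1, 972), (1, 2916)]), (14872252984517236,
    0, [(1, 819)], [(1, 2917)]), (2558107224102140, 0, [(1, 31), (1, 271), (1, 759)], [(2, 117),
    (1, 2943)]), (30633059759760, 0, [(2, 13), (2, 31), (1, 271), (2, 733), (3, 741), (1, 759),
    (1, 981), (1, 999)], [(2, 279), (3, 973), (1, 2197), (1, 2215), (3, 2223), (2, 2917), (1,
    2943)]), (107997929608020, 0, [(2, 31), (4, 117), (1, 741), (1, 973), (1, 981), (1, 999)],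
    [(1, 759), (1, 2197), (1, 2223), (2, 2943)]), (10194667807881557, 94, [(1, 27)], [(1, 729)]),
    (696016602506140, 0, [(1, 13), (1, 31), (2, 2197), (1, 2223), (2, 2917), (1, 2943)], [(1,
    271), (1, 279), (1, 733), (1, 741), (1, 973), (2, 981), (1, 2215)])]

theorem c2_4 : chk 8 67 cl 2 4 68341776146956552 ts2_4 = true := by decide +kernel

theorem h2_4 : HasCert 8 4 (isb10 2) 2 4 :=
  ⟨67, 68341776146956552, ts2_4, by norm_num, by norm_num, by rw [codes_eq]; exact c2_4⟩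

def ts2_6 : List (ℕ × ℕ × List (ℕ × ℕ) × List (ℕ × ℕ)) :=
  [(1, 0, [(1, 91)], [(1, 255)]), (1, 0, [(1, 91)], [(1, 2199)]), (1, 0, [(1, 255)], [(1, 739)]),
    (1, 0, [(1, 739)], [(1, 2439)]), (1, 0, [(1, 819)], [(1, 2199)]), (1, 0, [(1, 819)], [(1,
    2439)])]

theorem c2_6 : chk 8 13 cl 2 6 2 ts2_6 = true := by decide +kernel

theorem h2_6 : HasCert 8 4 (isb10 2) 2 6 :=
  ⟨13, 2, ts2_6, by norm_num, by norm_num, by rw [codes_eq]; exact c2_6⟩

def ts3_4 : List (ℕ × ℕ × List (ℕ × ℕ) × List (ℕ × ℕ)) :=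
  [(540, 0, [(1, 13), (1, 279), (2, 741), (2, 981)], [(2, 325), (1, 351), (2, 2269), (1, 2997)]),
    (140, 0, [(2, 13), (4, 741), (2, 813), (1, 981), (1, 2197)], [(1, 111), (4, 325), (2, 351),
    (2, 2223), (1, 2269)]), (1560, 0, [(1, 13), (1, 2197), (1, 2223)], [(1, 111), (1, 351), (1,
    813)]), (5940, 0, [(1, 111), (1, 741), (1, 813), (1, 981)], [(1, 325), (1, 2197), (1, 2223),
    (1, 2269)]), (1260, 0, [(2, 13), (1, 741), (2, 2197), (1, 2223)], [(2, 111), (1, 325), (2,
    351), (1, 813)]), (15540, 2268, [(1, 10), (1, 36)], []), (1080, 0, [(2, 13), (1, 741), (1,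
    981), (1, 2997)], [(1, 279), (1, 325), (2, 351), (1, 2269)]), (648, 0, [(1, 111), (1, 279),
    (1, 325), (2, 981), (2, 2223)], [(1, 741), (2, 813), (1, 2197), (2, 2269), (1, 2997)]), (3075,
    0, [(1, 13), (1, 813), (1, 2269), (2, 2997)], [(2, 279), (1, 351), (1, 981), (1, 2223)]),
    (15540, 324, [(1, 36), (1, 738)], []), (445, 0, [(1, 13), (2, 741), (1, 813), (2, 2197), (1,
    2269)], [(2, 111), (2, 325), (1, 351), (1, 981), (1, 2223)]), (108, 0, [(2, 111), (2, 325),
    (1, 813), (1, 2269), (3, 2997)], [(3, 279), (2, 741), (1, 981), (2, 2197), (1, 2223)])]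

theorem c3_4 : chk 8 25 cl 3 4 15540 ts3_4 = true := by decide +kernel

theorem h3_4 : HasCert 8 4 (isb10 2) 3 4 :=
  ⟨25, 15540, ts3_4, by norm_num, by norm_num, by rw [codes_eq]; exact c3_4⟩

def ps : List (List ℕ) :=
  [[0, 1, 2, 3, 4, 5, 6, 7, 8, 9], [8, 9, 6, 3, 4, 5, 2, 7, 0, 1], [5, 1, 6, 3, 4, 0, 2, 9, 8, 7],
    [0, 7, 6, 3, 4, 8, 2, 1, 5, 9], [5, 9, 2, 3, 4, 8, 6, 1, 0, 7], [8, 7, 2, 3, 4, 0, 6, 9, 5,
    1]]

def prs : List (ℕ × ℕ) :=
  [(0, 1), (0, 2), (0, 3), (0, 4), (0, 5), (0, 9), (1, 2), (1, 3), (1, 4), (1, 7), (2, 3), (2, 4),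
    (2, 6), (3, 4)]

theorem ps_ok : ps.all (autOK 10 4 (isb10 2)) = true := by decide +kernel

theorem cov : allCov 10 ps prs = true := by decide +kernel

theorem prs_ok : ∀ x ∈ prs, HasCert 8 4 (isb10 2) x.1 x.2 := by
  intro x hx
  unfold prs at hx
  simp only [List.mem_cons, List.not_mem_nil, or_false] at hx
  rcases hx with rfl | rfl | rfl | rfl | rfl | rfl | rfl | rfl | rfl | rfl | rfl | rfl | rfl | rfl
  · exact h0_1
  · exact h0_2
  · exact h0_3
  · exact h0_4
  · exact h0_5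
  · exact h0_9
  · exact h1_2
  · exact h1_3
  · exact h1_4
  · exact h1_7
  · exact h2_3
  · exact h2_4
  · exact h2_6
  · exact h3_4

/-- **The deletion is Rayleigh.** -/
theorem del {α : Type*} [Fintype α] {M : Matroid α} {φ : Fin 10 → α}
    (hφ : Function.Injective φ) (hr : Set.range φ = M.E)
    (hb : ∀ T : Finset (Fin 10), M.IsBase (φ '' (T : Set (Fin 10))) ↔
      T.card = 4 ∧ isb10 2 (mskT T) = true) : IsRayleigh M :=
  isRayleigh_of_certs (m := 8) hφ hr hb ps_ok prs_ok cov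

end Pool.Agent.H75.RayN.D2
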