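import Pool.Agent.H75.RayN.LabN
import Pool.Agent.H59.Ray.Elev

/-!
# The deletion of the element 4 of the matroid with eleven elements (MP_934449_co)

`cl`: codes of the bases; one certificate for each orbit of pairs.
-/

set_option autoImplicit false

namespace Pool.Agent.H75.RayN.D4

open Pool.Agent.H55.Ray
open Pool.Agent.H59.Ray (isb10 mskT)

def cl : List ℕ :=
  [40, 94, 112, 118, 256, 274, 282, 328, 334, 336, 352, 354, 360, 742, 760, 814, 820, 838, 976,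
    984, 1002, 1054, 1056, 1062, 1080, 2200, 2218, 2224, 2278, 2296, 2434, 2440, 2442, 2458, 2460,
    2466, 2512, 2520, 2538, 2920, 2926, 2944, 2998, 3160, 3162, 3168, 3186, 3240, 6574, 6592,
    6600, 6646, 6652, 6654, 6670, 6672, 6678, 6816, 6834, 6888, 6894, 6912, 7294, 7302, 7320,
    7372, 7374, 7380, 7398, 7536, 7614, 8752, 8758, 8760, 8776, 8778, 8784, 8830, 8838, 8856,
    8994, 9000, 9018, 9072, 9478, 9480, 9486, 9504, 9558, 9720, 19696, 19714, 19720, 19774, 19792,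
    19930, 19936, 19938, 19954, 19956, 19962, 20008, 20016, 20034, 20416, 20422, 20440, 20494,
    20656, 20658, 20664, 20682, 20736, 21880, 21898, 22114, 22122, 22140, 22600, 22842, 26248,
    26254, 26256, 26272, 26274, 26280, 26326, 26334, 26352, 26490, 26496, 26514, 26568, 26974,
    26976, 26982, 27000, 27054, 27216, 28432, 28440, 28458, 28674, 29160]

theorem codes_eq : codes 10 4 (isb10 4) = cl := by decide +kernel

def ts0_1 : List (ℕ × ℕ × List (ℕ × ℕ) × List (ℕ × ℕ)) :=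
  []

theorem c0_1 : chk 8 11 cl 0 1 1 ts0_1 = true := by decide +kernel

theorem h0_1 : HasCert 8 4 (isb10 4) 0 1 :=
  ⟨11, 1, ts0_1, by norm_num, by norm_num, by rw [codes_eq]; exact c0_1⟩

def ts0_2 : List (ℕ × ℕ × List (ℕ × ℕ) × List (ℕ × ℕ)) :=
  []

theorem c0_2 : chk 8 11 cl 0 2 1 ts0_2 = true := by decide +kernel

theorem h0_2 : HasCert 8 4 (isb10 4) 0 2 :=
  ⟨11, 1, ts0_2, by norm_num, by norm_num, by rw [codes_eq]; exact c0_2⟩

def ts0_5 : List (ℕ × ℕ × List (ℕ × ℕ) × List (ℕ × ℕ)) :=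
  []

theorem c0_5 : chk 8 12 cl 0 5 1 ts0_5 = true := by decide +kernel

theorem h0_5 : HasCert 8 4 (isb10 4) 0 5 :=
  ⟨12, 1, ts0_5, by norm_num, by norm_num, by rw [codes_eq]; exact c0_5⟩

def ts1_2 : List (ℕ × ℕ × List (ℕ × ℕ) × List (ℕ × ℕ)) :=
  []

theorem c1_2 : chk 8 11 cl 1 2 1 ts1_2 = true := by decide +kernel

theorem h1_2 : HasCert 8 4 (isb10 4) 1 2 :=
  ⟨11, 1, ts1_2, by norm_num, by norm_num, by rw [codes_eq]; exact c1_2⟩

def ts1_4 : List (ℕ × ℕ × List (ℕ × ℕ) × List (ℕ × ℕ)) :=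
  []

theorem c1_4 : chk 8 11 cl 1 4 1 ts1_4 = true := by decide +kernel

theorem h1_4 : HasCert 8 4 (isb10 4) 1 4 :=
  ⟨11, 1, ts1_4, by norm_num, by norm_num, by rw [codes_eq]; exact c1_4⟩

def ts2_3 : List (ℕ × ℕ × List (ℕ × ℕ) × List (ℕ × ℕ)) :=
  []

theorem c2_3 : chk 8 11 cl 2 3 1 ts2_3 = true := by decide +kernel

theorem h2_3 : HasCert 8 4 (isb10 4) 2 3 :=
  ⟨11, 1, ts2_3, by norm_num, by norm_num, by rw [codes_eq]; exact c2_3⟩

def ps : List (List ℕ) :=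
  [[0, 1, 2, 3, 4, 5, 6, 7, 8, 9], [0, 4, 3, 6, 7, 8, 2, 1, 5, 9], [5, 1, 6, 2, 7, 8, 3, 4, 0, 9],
    [0, 7, 6, 2, 9, 5, 3, 1, 8, 4], [5, 4, 2, 3, 9, 0, 6, 1, 8, 7], [5, 9, 3, 2, 1, 0, 6, 4, 8,
    7], [8, 1, 3, 2, 4, 0, 6, 7, 5, 9], [8, 4, 6, 2, 1, 0, 3, 7, 5, 9], [8, 7, 2, 3, 1, 0, 6, 4,
    5, 9], [0, 9, 2, 3, 1, 5, 6, 4, 8, 7], [5, 7, 3, 2, 1, 0, 6, 4, 8, 9], [8, 9, 6, 2, 1, 0, 3,
    4, 5, 7]]

def prs : List (ℕ × ℕ) :=
  [(0, 1), (0, 2), (0, 5), (1, 2), (1, 4), (2, 3)]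

theorem ps_ok : ps.all (autOK 10 4 (isb10 4)) = true := by decide +kernel

theorem cov : allCov 10 ps prs = true := by decide +kernel

theorem prs_ok : ∀ x ∈ prs, HasCert 8 4 (isb10 4) x.1 x.2 := by
  intro x hx
  unfold prs at hx
  simp only [List.mem_cons, List.not_mem_nil, or_false] at hx
  rcases hx with rfl | rfl | rfl | rfl | rfl | rfl
  · exact h0_1
  · exact h0_2
  · exact h0_5
  · exact h1_2
  · exact h1_4
  · exact h2_3

/-- **The deletion is Rayleigh.** -/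
theorem del {α : Type*} [Fintype α] {M : Matroid α} {φ : Fin 10 → α}
    (hφ : Function.Injective φ) (hr : Set.range φ = M.E)
    (hb : ∀ T : Finset (Fin 10), M.IsBase (φ '' (T : Set (Fin 10))) ↔
      T.card = 4 ∧ isb10 4 (mskT T) = true) : IsRayleigh M :=
  isRayleigh_of_certs (m := 8) hφ hr hb ps_ok prs_ok cov

end Pool.Agent.H75.RayN.D4
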