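import Pool.Agent.H75.RayN.LabN
import Pool.Agent.H59.Ray.Elev

/-!
# The deletion of the element 5 of the matroid with eleven elements (MP_934449_co)

`cl`: codes of the bases; one certificate for each orbit of pairs.
-/

set_option autoImplicit false

namespace Pool.Agent.H75.RayN.D5

open Pool.Agent.H55.Ray
open Pool.Agent.H59.Ray (isb10 mskT)

def cl : List ℕ :=
  [40, 94, 112, 118, 120, 256, 274, 282, 328, 334, 336, 352, 360, 742, 760, 820, 822, 838, 840,
    976, 984, 1002, 1054, 1056, 1062, 1080, 2200, 2218, 2224, 2272, 2278, 2280, 2298, 2304, 2434,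
    2440, 2442, 2458, 2460, 2466, 2512, 2514, 2538, 2920, 2926, 2944, 2998, 3000, 3006, 3024,
    3160, 3162, 3168, 3186, 3240, 6574, 6592, 6600, 6646, 6652, 6670, 6672, 6678, 6816, 6834,
    6888, 6894, 6912, 7294, 7302, 7320, 7372, 7374, 7380, 7398, 7536, 7614, 8752, 8758, 8760,
    8776, 8778, 8784, 8830, 8832, 8838, 8856, 8994, 9000, 9018, 9072, 9478, 9480, 9486, 9504,
    9720, 19696, 19714, 19720, 19768, 19776, 19792, 19794, 19800, 19930, 19936, 19938, 19954,
    19956, 19962, 20008, 20010, 20016, 20034, 20416, 20422, 20440, 20494, 20496, 20502, 20520,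
    20656, 20658, 20664, 20682, 21880, 21898, 21952, 21960, 21978, 22114, 22122, 22140, 22194,
    22600, 22680, 22842, 26248, 26254, 26256, 26272, 26274, 26280, 26326, 26328, 26334, 26490,
    26496, 26514, 26568, 26974, 26976, 26982, 27000, 27054, 27216, 28432, 28440, 28458, 28512,
    28674, 29160]

theorem codes_eq : codes 10 4 (isb10 5) = cl := by decide +kernel

def ts0_1 : List (ℕ × ℕ × List (ℕ × ℕ) × List (ℕ × ℕ)) :=
  [(12, 0, [(1, 253), (1, 279)], [(1, 2199)]), (24, 0, [(1, 37)], [(1, 741)]), (9, 0, [(1, 253),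
    (1, 2925)], [(1, 2199)]), (16, 4, [(1, 270), (1, 972)], [(1, 2214), (1, 2916)]), (16, 252,
    [(1, 28)], [(1, 732)]), (16, 4, [(1, 270), (1, 2214)], [(1, 972), (1, 2916)]), (6, 0, [(2,
    37), (1, 253), (2, 279)], [(2, 741), (1, 2199), (2, 2925)]), (6, 12, [(1, 270), (1, 972)],
    [(1, 2214), (1, 2916)]), (21, 0, [(1, 253)], [(1, 2199), (1, 2925)]), (16, 36, [(1, 244)],
    [(1, 2190)]), (8, 10, [(1, 972), (1, 2214)], [(1, 2916)]), (6, 12, [(1, 270), (1, 2214)], [(1,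
    972), (1, 2916)]), (16, 2196, [(1, 28)], [(1, 732)]), (16, 738, [(1, 244)], [(1, 2190)]), (4,
    0, [(4, 13), (2, 37), (4, 91), (4, 93), (2, 253), (2, 741), (2, 2199)], [(4, 273), (1, 279),
    (2, 973), (2, 975), (2, 2215), (2, 2217), (4, 2917), (1, 2925)]), (6, 10, [(1, 270), (1,
    972)], [(1, 2214), (1, 2916)]), (6, 10, [(1, 270), (1, 2214)], [(1, 972), (1, 2916)]), (8, 12,
    [(1, 270)], [(1, 972), (1, 2214)])]

theorem c0_1 : chk 8 17 cl 0 1 64 ts0_1 = true := by decide +kernel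

theorem h0_1 : HasCert 8 4 (isb10 5) 0 1 :=
  ⟨17, 64, ts0_1, by norm_num, by norm_num, by rw [codes_eq]; exact c0_1⟩

def ts0_2 : List (ℕ × ℕ × List (ℕ × ℕ) × List (ℕ × ℕ)) :=
  [(14, 0, [(1, 39), (1, 333)], []), (28, 0, [(1, 819)], [(1, 981)]), (192, 0, [(1, 13)], [(1,
    333)]), (302, 0, [(1, 39)], [(1, 333)]), (226, 0, [(1, 253)], [(1, 273)]), (220, 0, [(1, 13),
    (1, 37), (1, 39), (1, 273)], [(1, 333), (1, 811), (1, 819), (1, 981)]), (45, 0, [(1, 37), (1,
    819)], []), (132, 0, [(1, 37)], [(1, 811)]), (12, 0, [(1, 811)], [(1, 819)]), (333, 0, [(1,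
    13)], [(1, 819)]), (132, 0, [(1, 13)], [(1, 811)]), (333, 0, [(1, 37)], [(1, 819)]), (192, 0,
    [(1, 37)], [(1, 981)]), (288, 0, [(1, 39)], [(1, 981)]), (168, 0, [(1, 253)], [(1, 811)]),
    (32, 0, [(1, 13), (1, 37), (3, 273), (2, 2197)], [(1, 253), (3, 333), (1, 811), (3, 981), (3,
    2439)]), (45, 0, [(1, 13), (1, 819)], []), (62, 0, [(1, 13), (1, 37), (3, 253), (3, 2197)],
    [(1, 273), (2, 811)]), (220, 0, [(1, 273)], [(1, 2439)]), (72, 0, [(1, 811)], [(1, 2197)])]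

theorem c0_2 : chk 8 21 cl 0 2 1016 ts0_2 = true := by decide +kernel

theorem h0_2 : HasCert 8 4 (isb10 5) 0 2 :=
  ⟨21, 1016, ts0_2, by norm_num, by norm_num, by rw [codes_eq]; exact c0_2⟩

def ts0_4 : List (ℕ × ℕ × List (ℕ × ℕ) × List (ℕ × ℕ)) :=
  [(1887055005278063577852, 846, [(1, 1), (1, 2187)], [(1, 243)]), (1574240432781512303640, 328,
    [(4, 27)], [(1, 729)]), (4011797880831962608380, 0, [(3, 31), (1, 351), (1, 2997)], [(3, 279),
    (2, 739), (3, 975), (2, 981), (1, 2217), (1, 2223)]), (11201628865124092846815, 0, [(1, 109),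
    (1, 2217)], []), (48216978512569041189840, 768, [(1, 243)], [(1, 2187)]),
    (34101435243259669320, 2514, [(1, 27)], [(8, 729)]), (1473183881962944658920, 0, [(1, 279),
    (3, 351), (2, 981), (2, 2223)], [(2, 975), (2, 2217), (1, 2919), (3, 2997)]),
    (17642683480196152629720, 846, [(2, 1)], [(1, 2187)]), (12645972726533936753355, 0, [(1,
    109)], [(1, 2217)]), (3122079310899091458090, 0, [(2, 31), (1, 109), (1, 351), (1, 739), (3,
    811)], [(2, 975), (1, 2223)]), (1460344321423632738681, 3186, [(1, 3), (1, 81)], [(1, 9)]),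
    (1418080078966690075500, 1000, [(1, 3), (1, 9), (1, 81)], []), (1890292743528554592360, 2520,
    [(2, 27)], [(1, 729)]), (5568087162721214682600, 3186, [(2, 3), (2, 9)], [(1, 81)]),
    (12691444874796458370579, 3186, [(1, 3), (1, 9), (1, 81)], []), (15035274261271926976230, 840,
    [(2, 1), (2, 2187)], [(1, 243)]), (30023065814124077489340, 0, [(1, 109), (1, 2997)], [(1,
    2223)]), (6148096263125648929440, 0, [(1, 31), (1, 109), (1, 351), (1, 739), (2, 811)], [(2,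
    975), (1, 2223)]), (4197315910664395037680, 256, [(1, 27), (1, 729)], []),
    (2502974065348537467750, 0, [(1, 109), (2, 351), (2, 2217)], [(1, 811), (1, 2997)]),
    (3377624717532431577330, 0, [(2, 31), (2, 2217), (2, 2997)], [(1, 279), (2, 351), (1, 739),
    (1, 975)]), (64125688039183059030, 0, [(1, 31), (4, 109), (1, 811), (2, 981), (6, 2217)], [(2,
    279), (5, 351), (1, 739), (1, 2919)]), (13804775274917662876890, 840, [(1, 1), (1, 2187)],
    []), (3821571398254919417010, 0, [(1, 109), (1, 975), (3, 2919)], [(1, 739), (2, 811)]),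
    (4850723360130572569050, 0, [(1, 109)], [(1, 2223)]), (19418254773833741563710, 0, [(1, 351)],
    [(1, 975)]), (275478261772329311780, 256, [(1, 27)], [(8, 729)]), (14617693385554162773870, 0,
    [(1, 31)], [(1, 739)]), (3246409323632408211180, 0, [(1, 31), (1, 811)], []),
    (8918630021748230994420, 768, [(1, 1)], [(2, 243), (2, 2187)]), (96361314564406560840, 1000,
    [(1, 3)], [(6, 9), (6, 81)]), (15869768070970122212610, 0, [(1, 981), (1, 2919)], []),
    (5328547061118123166380, 1000, [(1, 3)], [(1, 9), (4, 81)]), (3299960763913219437150, 0, [(1,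
    31), (3, 109), (2, 739)], [(2, 2223)]), (46773390392112397118616, 756, [(1, 82)], [(1, 252),
    (1, 2190)]), (2550310391113812222840, 0, [(2, 31), (2, 2217), (2, 2997)], [(1, 109), (2, 279),
    (2, 351), (1, 739), (1, 975)]), (2180865165167298609720, 0, [(1, 31), (1, 975), (2, 981), (3,
    2217), (3, 2223), (1, 2919)], [(1, 279), (1, 351), (2, 739), (1, 2997)]),
    (478911055570027215030, 840, [(1, 1), (1, 243), (1, 2187)], []), (3200472190377199187100, 0,
    [(1, 31), (1, 975), (2, 981), (3, 2217), (3, 2223), (2, 2919)], [(1, 279), (1, 351), (3, 739),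
    (1, 2997)]), (4587615277914159973440, 0, [(1, 109), (1, 975), (3, 2919)], [(1, 279), (1, 739),
    (3, 811)]), (7777428930759593340900, 0, [(1, 981)], [(1, 2997)]), (2535955253115476602410, 0,
    [(3, 31), (1, 2223), (2, 2919), (1, 2997)], [(1, 279), (1, 351), (3, 739), (1, 811), (4,
    981)]), (22031189406475618199544, 756, [(1, 82), (1, 252)], [(1, 2190)]),
    (1057838610763402758612, 846, [(3, 1), (4, 243)], [(2, 2187)]), (9671125997885447925270, 0,
    [(1, 279), (2, 351), (1, 981), (1, 2223)], [(1, 975), (1, 2217), (1, 2919), (2, 2997)]),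
    (10272072388540272527700, 0, [(1, 811)], [(1, 981)])]

theorem c0_4 : chk 8 88 cl 0 4 127887458663517414137640 ts0_4 = true := by decide +kernel

theorem h0_4 : HasCert 8 4 (isb10 5) 0 4 :=
  ⟨88, 127887458663517414137640, ts0_4, by norm_num, by norm_num, by rw [codes_eq]; exact c0_4⟩

def ts0_5 : List (ℕ × ℕ × List (ℕ × ℕ) × List (ℕ × ℕ)) :=
  [(1, 0, [(1, 39)], [(1, 271)]), (1, 0, [(1, 39)], [(1, 2457)]), (1, 0, [(1, 111)], [(1, 2215)]),
    (1, 0, [(1, 111)], [(1, 2457)]), (1, 0, [(1, 117)], [(1, 271)]), (1, 0, [(1, 117)], [(1,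
    2215)])]

theorem c0_5 : chk 8 13 cl 0 5 2 ts0_5 = true := by decide +kernel

theorem h0_5 : HasCert 8 4 (isb10 5) 0 5 :=
  ⟨13, 2, ts0_5, by norm_num, by norm_num, by rw [codes_eq]; exact c0_5⟩

def ts2_3 : List (ℕ × ℕ × List (ℕ × ℕ) × List (ℕ × ℕ)) :=
  [(1, 0, [(1, 37)], [(1, 255)]), (1, 0, [(1, 37)], [(1, 2439)]), (1, 0, [(1, 255)], [(1, 765)]),
    (1, 0, [(1, 739)], [(1, 2199)]), (1, 0, [(1, 739)], [(1, 2439)]), (1, 0, [(1, 765)], [(1,
    2199)])]

theorem c2_3 : chk 8 12 cl 2 3 2 ts2_3 = true := by decide +kernel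

theorem h2_3 : HasCert 8 4 (isb10 5) 2 3 :=
  ⟨12, 2, ts2_3, by norm_num, by norm_num, by rw [codes_eq]; exact c2_3⟩

def ts2_4 : List (ℕ × ℕ × List (ℕ × ℕ) × List (ℕ × ℕ)) :=
  [(3, 0, [(1, 13), (1, 2197), (1, 2269), (1, 2997)], [(1, 111), (1, 279), (1, 351), (1, 981)]),
    (1, 0, [(1, 13), (1, 111), (2, 741), (2, 813), (1, 981), (1, 2997)], [(1, 279), (2, 325), (1,
    351), (1, 2197), (2, 2223), (1, 2269)])]

theorem c2_4 : chk 8 13 cl 2 4 4 ts2_4 = true := by decide +kernel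

theorem h2_4 : HasCert 8 4 (isb10 5) 2 4 :=
  ⟨13, 4, ts2_4, by norm_num, by norm_num, by rw [codes_eq]; exact c2_4⟩

def ps : List (List ℕ) :=
  [[0, 1, 2, 3, 4, 5, 6, 7, 8, 9], [1, 5, 6, 2, 4, 7, 3, 8, 9, 0], [5, 7, 3, 6, 4, 8, 2, 9, 0, 1],
    [7, 0, 6, 2, 4, 9, 3, 5, 1, 8], [8, 1, 3, 6, 4, 0, 2, 7, 5, 9], [9, 0, 3, 6, 4, 1, 2, 5, 7,
    8], [5, 9, 2, 3, 4, 8, 6, 1, 0, 7], [7, 8, 2, 3, 4, 9, 6, 0, 1, 5], [8, 9, 2, 6, 4, 5, 3, 7,
    0, 1], [0, 1, 3, 2, 4, 8, 6, 9, 5, 7], [0, 7, 6, 2, 4, 5, 3, 9, 8, 1], [1, 0, 2, 3, 4, 7, 6,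
    5, 9, 8], [1, 0, 3, 2, 4, 9, 6, 8, 7, 5], [5, 1, 6, 2, 4, 8, 3, 7, 0, 9], [7, 5, 3, 6, 4, 9,
    2, 8, 1, 0], [8, 1, 6, 3, 4, 5, 2, 9, 0, 7], [9, 0, 6, 3, 4, 7, 2, 8, 1, 5], [9, 5, 2, 3, 4,
    1, 6, 8, 7, 0]]

def prs : List (ℕ × ℕ) :=
  [(0, 1), (0, 2), (0, 4), (0, 5), (2, 3), (2, 4)]

theorem ps_ok : ps.all (autOK 10 4 (isb10 5)) = true := by decide +kernel

theorem cov : allCov 10 ps prs = true := by decide +kernel

theorem prs_ok : ∀ x ∈ prs, HasCert 8 4 (isb10 5) x.1 x.2 := by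
  intro x hx
  unfold prs at hx
  simp only [List.mem_cons, List.not_mem_nil, or_false] at hx
  rcases hx with rfl | rfl | rfl | rfl | rfl | rfl
  · exact h0_1
  · exact h0_2
  · exact h0_4
  · exact h0_5
  · exact h2_3
  · exact h2_4

/-- **The deletion is Rayleigh.** -/
theorem del {α : Type*} [Fintype α] {M : Matroid α} {φ : Fin 10 → α}
    (hφ : Function.Injective φ) (hr : Set.range φ = M.E)
    (hb : ∀ T : Finset (Fin 10), M.IsBase (φ '' (T : Set (Fin 10))) ↔
      T.card = 4 ∧ isb10 5 (mskT T) = true) : IsRayleigh M :=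
  isRayleigh_of_certs (m := 8) hφ hr hb ps_ok prs_ok cov

end Pool.Agent.H75.RayN.D5
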