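import Pool.Agent.H75.RayN.Del0
import Pool.Agent.H75.RayN.Del1
import Pool.Agent.H75.RayN.Del2
import Pool.Agent.H75.RayN.Del4
import Pool.Agent.H75.RayN.Del5

/-!
# The five deletions of the matroid with eleven elements are Rayleigh (MP_934449_co)
-/

set_option autoImplicit false

namespace Pool.Agent.H75.RayN

open Pool.Agent.H55.Ray
open Pool.Agent.H59.Ray (isb10 mskT DelGood)

/-- **The five deletions are Rayleigh.** -/
theorem delGood : DelGood := by
  intro x hx M φ hφ hr hb
  simp only [List.mem_cons, List.not_mem_nil, or_false] at hx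
  rcases hx with rfl | rfl | rfl | rfl | rfl
  · exact D0.del hφ hr hb
  · exact D1.del hφ hr hb
  · exact D2.del hφ hr hb
  · exact D4.del hφ hr hb
  · exact D5.del hφ hr hb

end Pool.Agent.H75.RayN
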