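import Pool.Agent.H75.RayN.KronN
import Pool.Agent.H75.Ray.Chk

/-!
# The checker for matroids on n = m + 2 elements (MP_934449_co)

As `H75/Ray/Chk`, but the digits of `e < f` are removed from the codes, so that there are only `3 ^ m`
slots, and the word size `ww` is a parameter. In a certificate the codes are those without the digits
`e` and `f`; `eps` does not contain `e`, `f`.
-/

set_option autoImplicit false

namespace Pool.Agent.H75.RayN

open Finset
open Pool.Agent.H75.Ray (dg D1b num cf dg_zero dg_succ D1b_le D1b_lt dg_add num_cons num_eq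
  cf_cons cf_le cf_le_of_and hH mulL scl shf num_nil num_append num_scl num_shf num_mulL scl_lt
  Term tP tN lin tsP tsN)

theorem phi_append (n : ℕ) (w : ℕ → ℝ) (p q : List (ℕ × ℕ)) :
    phi n w (p ++ q) = phi n w p + phi n w q := by
  unfold phi
  rw [List.map_append, List.sum_append]

theorem phi_scl (n : ℕ) (w : ℕ → ℝ) (d : ℕ) (p : List (ℕ × ℕ)) :
    phi n w (scl d p) = d * phi n w p := by
  induction p with
  | nil => simp [scl, phi]
  | cons a p ih =>
    have h : scl d (a :: p) = (d * a.1, a.2) :: scl d p := rfl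
    rw [h, phi_cons, phi_cons, ih]
    push_cast
    ring

theorem phi_shf (n : ℕ) (w : ℕ → ℝ) {m e : ℕ} (he : D1b m e = true) {p : List (ℕ × ℕ)}
    (hp : ∀ a ∈ p, D1b m a.2 = true) : phi n w (shf e p) = mono n w e * phi n w p := by
  induction p with
  | nil => simp [shf, phi]
  | cons a p ih =>
    have h : shf e (a :: p) = (a.1, e + a.2) :: shf e p := rfl
    rw [h, phi_cons, phi_cons, ih (fun b hb => hp b (List.mem_cons_of_mem a hb)),
      mono_add n w he (hp a List.mem_cons_self)]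
    ring

theorem phi_mulL (n : ℕ) (w : ℕ → ℝ) {m : ℕ} {p q : List (ℕ × ℕ)}
    (hp : ∀ a ∈ p, D1b m a.2 = true) (hq : ∀ a ∈ q, D1b m a.2 = true) :
    phi n w (mulL p q) = phi n w p * phi n w q := by
  have h1 : ∀ a : ℕ × ℕ, D1b m a.2 = true → ∀ q : List (ℕ × ℕ),
      (∀ a ∈ q, D1b m a.2 = true) →
      phi n w (q.map (fun b => (a.1 * b.1, a.2 + b.2))) = a.1 * mono n w a.2 * phi n w q := by
    intro a ha q hq
    induction q with
    | nil => simp [phi]
    | cons b q ih =>
      rw [List.map_cons, phi_cons, phi_cons, ih (fun c hc => hq c (List.mem_cons_of_mem b hc)),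
        mono_add n w ha (hq b List.mem_cons_self)]
      push_cast
      ring
  induction p with
  | nil => simp [mulL, phi]
  | cons a p ih =>
    have h : mulL (a :: p) q = q.map (fun b => (a.1 * b.1, a.2 + b.2)) ++ mulL p q := by
      unfold mulL
      rw [List.flatMap_cons]
    rw [h, phi_append, phi_cons, ih (fun b hb => hp b (List.mem_cons_of_mem a hb)),
      h1 a (hp a List.mem_cons_self) q hq]
    ring

theorem mulL_lt {m : ℕ} {p q : List (ℕ × ℕ)} (hp : ∀ a ∈ p, D1b m a.2 = true)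
    (hq : ∀ a ∈ q, D1b m a.2 = true) : ∀ a ∈ mulL p q, a.2 < 3 ^ m := by
  intro a ha
  unfold mulL at ha
  rw [List.mem_flatMap] at ha
  obtain ⟨b, hb, ha⟩ := ha
  rw [List.mem_map] at ha
  obtain ⟨c, hc, rfl⟩ := ha
  have h1 := D1b_lt (hp b hb)
  have h2 := D1b_lt (hq c hc)
  show b.2 + c.2 < 3 ^ m
  omega

/-- the codes of a term are admissible -/
def tok (m : ℕ) (t : Term) : Bool :=
  D1b m t.2.1 && t.2.2.1.all (fun a => D1b m a.2 && D1b m (t.2.1 + a.2)) &&
    t.2.2.2.all (fun a => D1b m a.2 && D1b m (t.2.1 + a.2))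

private theorem tok_all {m eps : ℕ} {p : List (ℕ × ℕ)}
    (h : p.all (fun a => D1b m a.2 && D1b m (eps + a.2)) = true) :
    (∀ a ∈ p, D1b m a.2 = true) ∧ ∀ a ∈ shf eps p, D1b m a.2 = true := by
  rw [List.all_eq_true] at h
  refine ⟨fun a ha => ?_, fun a ha => ?_⟩
  · have h1 := h a ha
    rw [Bool.and_eq_true] at h1
    exact h1.1
  · unfold shf at ha
    rw [List.mem_map] at ha
    obtain ⟨b, hb, rfl⟩ := ha
    have h1 := h b hb
    rw [Bool.and_eq_true] at h1
    exact h1.2

private theorem t_lt {m : ℕ} {t : Term} (h : tok m t = true) :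
    (∀ a ∈ tP t, a.2 < 3 ^ m) ∧ ∀ a ∈ tN t, a.2 < 3 ^ m := by
  unfold tok at h
  rw [Bool.and_eq_true, Bool.and_eq_true] at h
  obtain ⟨⟨h0, h1⟩, h2⟩ := h
  have h3 := tok_all h1
  have h4 := tok_all h2
  refine ⟨scl_lt (mulL_lt h3.2 h4.1), scl_lt ?_⟩
  intro a ha
  rw [List.mem_append] at ha
  rcases ha with ha | ha
  · exact mulL_lt h3.2 h3.1 a ha
  · exact mulL_lt h4.2 h4.1 a ha

private theorem t_phi (n : ℕ) {m : ℕ} {w : ℕ → ℝ} (hw : ∀ t, 0 ≤ w t) {t : Term}
    (h : tok m t = true) : phi n w (tP t) ≤ phi n w (tN t) := by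
  unfold tok at h
  rw [Bool.and_eq_true, Bool.and_eq_true] at h
  obtain ⟨⟨h0, h1⟩, h2⟩ := h
  have h3 := tok_all h1
  have h4 := tok_all h2
  unfold tP tN
  rw [phi_scl, phi_scl, phi_append, phi_mulL n w h3.2 h4.1, phi_mulL n w h3.2 h3.1,
    phi_mulL n w h4.2 h4.1, phi_shf n w h0 h3.1, phi_shf n w h0 h4.1]
  have h5 := mul_nonneg (mul_nonneg (Nat.cast_nonneg (α := ℝ) t.1) (mono_nonneg n hw t.2.1))
    (sq_nonneg (phi n w t.2.2.1 - phi n w t.2.2.2))
  push_cast
  nlinarith [h5]

/-! ### the checker -/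

/-- sum of the powers `X ^ c'` over the codes with given digits at `e`, `f` -/
def sel (X e f a b : ℕ) (cl : List ℕ) : ℕ :=
  cl.foldr (fun c r => bif (dg c e == a && dg c f == b) then X ^ rmd e (rmd f c) + r else r) 0

def numP (X : ℕ) (cl : List ℕ) (e f D : ℕ) (ts : List Term) : ℕ :=
  D * (sel X e f 1 0 cl * sel X e f 0 1 cl) + tsP X ts

def numN (X : ℕ) (cl : List ℕ) (e f D : ℕ) (ts : List Term) : ℕ :=
  D * (sel X e f 1 1 cl * sel X e f 0 0 cl) + tsN X ts

/-- **The checker** for one pair `e < f`, `m + 2` elements, word size `ww`. -/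
def chk (m ww : ℕ) (cl : List ℕ) (e f D : ℕ) (ts : List Term) : Bool :=
  Nat.blt 0 D && ts.all (tok m) && Nat.blt (numP 1 cl e f D ts) (2 ^ ww) &&
    Nat.blt (numN 1 cl e f D ts) (2 ^ ww) &&
    Nat.beq ((numP (2 ^ (ww + 1)) cl e f D ts + hH ww (3 ^ m) -
      numN (2 ^ (ww + 1)) cl e f D ts) &&& hH ww (3 ^ m)) (hH ww (3 ^ m))

/-! ### soundness -/

/-- the list of terms of the bases with given digits, digits `e`, `f` removed -/
def selR (e f a b : ℕ) (cl : List ℕ) : List (ℕ × ℕ) :=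
  (cl.filter (fun c => dg c e == a && dg c f == b)).map (fun c => (1, rmd e (rmd f c)))

/-- the list of terms of the bases with given digits -/
def selL (e f a b : ℕ) (cl : List ℕ) : List (ℕ × ℕ) :=
  (cl.filter (fun c => dg c e == a && dg c f == b)).map (fun c => (1, c))

private theorem sel_eq (X e f a b : ℕ) (cl : List ℕ) :
    sel X e f a b cl = num X (selR e f a b cl) := by
  induction cl with
  | nil => rfl
  | cons c cl ih =>
    have h1 : sel X e f a b (c :: cl) = bif (dg c e == a && dg c f == b) then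
        X ^ rmd e (rmd f c) + sel X e f a b cl else sel X e f a b cl := rfl
    rw [h1, ih]
    unfold selR
    rw [List.filter_cons]
    cases (dg c e == a && dg c f == b)
    · rfl
    · simp only [cond_true, if_true, List.map_cons, num_cons, one_mul]

private theorem lin_eq (X : ℕ) (q : List (ℕ × ℕ)) : lin X q = num X q := by
  induction q with
  | nil => rfl
  | cons a q ih =>
    have h1 : lin X (a :: q) = a.1 * X ^ a.2 + lin X q := rfl
    rw [h1, ih, num_cons]

private theorem tsP_eq (X : ℕ) (ts : List Term) : tsP X ts = num X (ts.flatMap tP) := by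
  induction ts with
  | nil => rfl
  | cons t ts ih =>
    have h1 : tsP X (t :: ts) =
        2 * t.1 * (X ^ t.2.1 * lin X t.2.2.1 * lin X t.2.2.2) + tsP X ts := rfl
    rw [h1, ih, List.flatMap_cons, num_append]
    unfold tP
    rw [num_scl, num_mulL, num_shf, lin_eq, lin_eq]

private theorem tsN_eq (X : ℕ) (ts : List Term) : tsN X ts = num X (ts.flatMap tN) := by
  induction ts with
  | nil => rfl
  | cons t ts ih =>
    have h1 : tsN X (t :: ts) = t.1 * (X ^ t.2.1 * (lin X t.2.2.1 * lin X t.2.2.1 +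
      lin X t.2.2.2 * lin X t.2.2.2)) + tsN X ts := rfl
    rw [h1, ih, List.flatMap_cons, num_append]
    unfold tN
    rw [num_scl, num_append, num_mulL, num_mulL, num_shf, num_shf, lin_eq, lin_eq]
    ring

def pL (cl : List ℕ) (e f D : ℕ) (ts : List Term) : List (ℕ × ℕ) :=
  scl D (mulL (selR e f 1 0 cl) (selR e f 0 1 cl)) ++ ts.flatMap tP

def nL (cl : List ℕ) (e f D : ℕ) (ts : List Term) : List (ℕ × ℕ) :=
  scl D (mulL (selR e f 1 1 cl) (selR e f 0 0 cl)) ++ ts.flatMap tN

private theorem numP_eq (X : ℕ) (cl : List ℕ) (e f D : ℕ) (ts : List Term) :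
    numP X cl e f D ts = num X (pL cl e f D ts) := by
  unfold numP pL
  rw [num_append, num_scl, num_mulL, sel_eq, sel_eq, tsP_eq]

private theorem numN_eq (X : ℕ) (cl : List ℕ) (e f D : ℕ) (ts : List Term) :
    numN X cl e f D ts = num X (nL cl e f D ts) := by
  unfold numN nL
  rw [num_append, num_scl, num_mulL, sel_eq, sel_eq, tsN_eq]

private theorem selR_D1 {m e f a b : ℕ} (hef : e < f) (hf : f < m + 2) {cl : List ℕ}
    (hcl : ∀ c ∈ cl, D1b (m + 2) c = true) : ∀ x ∈ selR e f a b cl, D1b m x.2 = true := by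
  intro x hx
  unfold selR at hx
  rw [List.mem_map] at hx
  obtain ⟨c, hc, rfl⟩ := hx
  exact D1b_rmd (by omega) (D1b_rmd (by omega) (hcl c (List.mem_of_mem_filter hc)))

private theorem flat_lt {m : ℕ} {ts : List Term} (h : ts.all (tok m) = true) :
    (∀ a ∈ ts.flatMap tP, a.2 < 3 ^ m) ∧ ∀ a ∈ ts.flatMap tN, a.2 < 3 ^ m := by
  rw [List.all_eq_true] at h
  constructor
  · intro a ha
    rw [List.mem_flatMap] at ha
    obtain ⟨t, ht, ha⟩ := ha
    exact (t_lt (h t ht)).1 a ha
  · intro a ha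
    rw [List.mem_flatMap] at ha
    obtain ⟨t, ht, ha⟩ := ha
    exact (t_lt (h t ht)).2 a ha

private theorem flat_phi (n : ℕ) {m : ℕ} {w : ℕ → ℝ} (hw : ∀ t, 0 ≤ w t) {ts : List Term}
    (h : ts.all (tok m) = true) : phi n w (ts.flatMap tP) ≤ phi n w (ts.flatMap tN) := by
  induction ts with
  | nil => exact le_rfl
  | cons t ts ih =>
    rw [List.all_cons, Bool.and_eq_true] at h
    rw [List.flatMap_cons, List.flatMap_cons, phi_append, phi_append]
    exact add_le_add (t_phi n hw h.1) (ih h.2)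

private theorem selL_selR {m e f a b : ℕ} (hef : e < f) (hf : f < m + 2) (w : ℕ → ℝ)
    (cl : List ℕ) : phi (m + 2) w (selL e f a b cl) =
      w e ^ a * w f ^ b * phi m (skp e (skp f w)) (selR e f a b cl) := by
  induction cl with
  | nil => simp [selL, selR, phi]
  | cons c cl ih =>
    unfold selL selR at ih ⊢
    rw [List.filter_cons]
    by_cases h : (dg c e == a && dg c f == b) = true
    · rw [if_pos h, List.map_cons, List.map_cons, phi_cons, phi_cons, ih]
      have h1 : dg c e = a ∧ dg c f = b := by simpa using h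
      show ((1 : ℕ) : ℝ) * mono (m + 2) w c + _ = _ * (((1 : ℕ) : ℝ) *
        mono m (skp e (skp f w)) (rmd e (rmd f c)) + _)
      rw [mono_rmd2 hef hf w c, h1.1, h1.2]
      ring
    · rw [if_neg h]
      exact ih

/-- **Soundness of the checker.** -/
theorem chk_sound {m ww : ℕ} {cl : List ℕ} {e f D : ℕ} {ts : List Term} (hef : e < f)
    (hf : f < m + 2) (hcl : ∀ c ∈ cl, D1b (m + 2) c = true)
    (h : chk m ww cl e f D ts = true) {w : ℕ → ℝ} (hw : ∀ t, 0 ≤ w t) :
    0 ≤ phi (m + 2) w (selL e f 1 0 cl) * phi (m + 2) w (selL e f 0 1 cl) -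
      phi (m + 2) w (selL e f 1 1 cl) * phi (m + 2) w (selL e f 0 0 cl) := by
  unfold chk at h
  rw [Bool.and_eq_true, Bool.and_eq_true, Bool.and_eq_true, Bool.and_eq_true] at h
  obtain ⟨⟨⟨⟨hD, ht⟩, h1⟩, h2⟩, h3⟩ := h
  have hD' : 0 < D := by simpa [Nat.blt_eq] using hD
  have h1' : num 1 (pL cl e f D ts) < 2 ^ ww := by
    rw [← numP_eq]
    simpa [Nat.blt_eq] using h1
  have h2' : num 1 (nL cl e f D ts) < 2 ^ ww := by
    rw [← numN_eq]
    simpa [Nat.blt_eq] using h2
  have h3' := Nat.eq_of_beq_eq_true h3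
  rw [numP_eq, numN_eq] at h3'
  have hs : ∀ a b : ℕ, ∀ x ∈ selR e f a b cl, D1b m x.2 = true := fun a b =>
    selR_D1 hef hf hcl
  have hp : ∀ a ∈ pL cl e f D ts, a.2 < 3 ^ m := by
    intro a ha
    unfold pL at ha
    rw [List.mem_append] at ha
    rcases ha with ha | ha
    · exact scl_lt (mulL_lt (hs 1 0) (hs 0 1)) a ha
    · exact (flat_lt ht).1 a ha
  have hn : ∀ a ∈ nL cl e f D ts, a.2 < 3 ^ m := by
    intro a ha
    unfold nL at ha
    rw [List.mem_append] at ha
    rcases ha with ha | ha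
    · exact scl_lt (mulL_lt (hs 1 1) (hs 0 0)) a ha
    · exact (flat_lt ht).2 a ha
  have h4 := cf_le_of_and (w := ww) (K := 3 ^ m) hp hn h1' h2' h3'
  set w' : ℕ → ℝ := skp e (skp f w) with hw'
  have hw0 : ∀ t, 0 ≤ w' t := skp_nonneg e (skp_nonneg f hw)
  have h5 := phi_le m hw0 hp hn h4
  unfold pL nL at h5
  rw [phi_append, phi_append, phi_scl, phi_scl, phi_mulL m w' (hs 1 0) (hs 0 1),
    phi_mulL m w' (hs 1 1) (hs 0 0)] at h5
  have h6 := flat_phi m hw0 ht
  have hDr : (0 : ℝ) < D := by exact_mod_cast hD'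
  have h7 : (D : ℝ) * (phi m w' (selR e f 1 1 cl) * phi m w' (selR e f 0 0 cl)) ≤
      D * (phi m w' (selR e f 1 0 cl) * phi m w' (selR e f 0 1 cl)) := by linarith
  have h8 := le_of_mul_le_mul_left h7 hDr
  rw [selL_selR hef hf, selL_selR hef hf, selL_selR hef hf, selL_selR hef hf, ← hw']
  have h9 := mul_nonneg (mul_nonneg (hw e) (hw f)) (sub_nonneg.2 h8)
  nlinarith [h9]

end Pool.Agent.H75.RayN
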