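import Pool.Agent.H75.RayN.LabN
import Pool.Agent.H59.Ray.Elev

/-!
# The deletion of the element 0 of the matroid with eleven elements (MP_934449_co)

`cl`: codes of the bases; one certificate for each orbit of pairs.
-/

set_option autoImplicit false

namespace Pool.Agent.H75.RayN.D0

open Pool.Agent.H55.Ray
open Pool.Agent.H59.Ray (isb10 mskT)

def cl : List ℕ :=
  [40, 112, 118, 120, 256, 274, 282, 328, 334, 336, 352, 354, 360, 760, 766, 838, 840, 846, 976,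
    982, 1000, 1002, 1008, 1054, 1056, 1062, 1080, 2218, 2224, 2226, 2298, 2304, 2434, 2440, 2442,
    2458, 2466, 2514, 2520, 2538, 2944, 2946, 2952, 3024, 3160, 3162, 3168, 3186, 3240, 6574,
    6598, 6600, 6646, 6652, 6654, 6670, 6672, 6678, 6808, 6814, 6832, 6834, 6840, 6886, 6888,
    6894, 7294, 7300, 7318, 7320, 7326, 7372, 7374, 7380, 7398, 7534, 7560, 7614, 8752, 8758,
    8760, 8776, 8778, 8784, 8832, 8838, 8856, 8992, 8994, 9000, 9018, 9072, 9478, 9480, 9486,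
    9558, 9720, 19714, 19720, 19722, 19794, 19800, 19930, 19936, 19938, 19954, 19956, 19962,
    20010, 20016, 20034, 20440, 20442, 20448, 20520, 20656, 20658, 20664, 20736, 21900, 21906,
    22116, 22122, 22140, 22626, 22842, 26248, 26254, 26256, 26272, 26274, 26328, 26334, 26352,
    26488, 26490, 26496, 26514, 26568, 26974, 26976, 26982, 27000, 27054, 27216, 28434, 28440,
    28458, 28674, 29160]

theorem codes_eq : codes 10 4 (isb10 0) = cl := by decide +kernel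

def ts0_1 : List (ℕ × ℕ × List (ℕ × ℕ) × List (ℕ × ℕ)) :=
  [(25, 0, [(1, 39)], [(1, 247)]), (22, 0, [(1, 39)], [(1, 271)]), (10, 0, [(2, 39), (2, 111), (1,
    759), (2, 2217)], [(2, 247), (2, 271)]), (3, 0, [(1, 39), (1, 247)], []), (22, 0, [(1, 111)],
    [(1, 247)]), (22, 0, [(1, 111)], [(1, 271)]), (6, 0, [(1, 271)], [(1, 759)]), (12, 0, [(1,
    247), (3, 759)], [(1, 271)]), (22, 0, [(1, 247)], [(1, 2217)]), (22, 0, [(1, 271)], [(1,
    2217)])]

theorem c0_1 : chk 8 18 cl 0 1 124 ts0_1 = true := by decide +kernel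

theorem h0_1 : HasCert 8 4 (isb10 0) 0 1 :=
  ⟨18, 124, ts0_1, by norm_num, by norm_num, by rw [codes_eq]; exact c0_1⟩

def ts0_3 : List (ℕ × ℕ × List (ℕ × ℕ) × List (ℕ × ℕ)) :=
  [(1344, 0, [(1, 351)], [(1, 975)]), (4422, 0, [(1, 37)], [(1, 999)]), (452, 2512, [(1, 27)],
    [(2, 729)]), (1344, 0, [(1, 2215)], [(1, 2997)]), (4422, 0, [(1, 819)], [(1, 999)]), (1104, 0,
    [(1, 351)], [(1, 2215)]), (237, 0, [(1, 273), (2, 351), (3, 2217)], [(3, 973), (1, 2917), (2,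
    2997)]), (4422, 0, [(1, 117)], [(1, 2943)]), (16, 2512, [(1, 27)], [(5, 729)]), (1740, 3186,
    [(1, 1), (1, 3)], [(1, 81)]), (16, 2514, [(5, 27)], [(1, 729)]), (452, 2514, [(2, 27)], [(1,
    729)]), (4422, 0, [(1, 741)], [(1, 2943)]), (1104, 0, [(1, 975)], [(1, 2997)]), (612, 0, [(2,
    351)], [(2, 973), (2, 2215), (1, 2917), (2, 2997)]), (612, 0, [(1, 273), (2, 351), (2, 975),
    (2, 2217)], [(2, 2997)]), (552, 0, [(1, 351), (1, 2997)], [(1, 973), (2, 975), (2, 2215), (1,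
    2217)])]

theorem c0_3 : chk 8 24 cl 0 3 8844 ts0_3 = true := by decide +kernel

theorem h0_3 : HasCert 8 4 (isb10 0) 0 3 :=
  ⟨24, 8844, ts0_3, by norm_num, by norm_num, by rw [codes_eq]; exact c0_3⟩

def ts0_4 : List (ℕ × ℕ × List (ℕ × ℕ) × List (ℕ × ℕ)) :=
  [(1, 0, [(1, 37)], [(1, 741)])]

theorem c0_4 : chk 8 12 cl 0 4 2 ts0_4 = true := by decide +kernel

theorem h0_4 : HasCert 8 4 (isb10 0) 0 4 :=
  ⟨12, 2, ts0_4, by norm_num, by norm_num, by rw [codes_eq]; exact c0_4⟩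

def ts0_5 : List (ℕ × ℕ × List (ℕ × ℕ) × List (ℕ × ℕ)) :=
  [(3257377192, 0, [(2, 13), (3, 37), (2, 91), (1, 117), (1, 757), (2, 2197)], [(1, 333), (2,
    973), (3, 981), (2, 2917), (2, 2925)]), (55829742216, 820, [(1, 27), (1, 243), (1, 2187)],
    []), (6573173896, 0, [(1, 117), (1, 2925)], []), (369006648, 0, [(2, 13), (2, 91), (3, 741),
    (1, 2925)], [(3, 117), (1, 333), (2, 757), (2, 973), (1, 2917)]), (8581198026, 0, [(2, 13),
    (2, 91), (1, 741), (1, 819), (2, 2925)], [(2, 757), (2, 973), (2, 2917), (1, 2997)]),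
    (1539145575, 0, [(3, 13), (3, 91), (1, 741), (1, 819), (2, 2925)], [(3, 757), (3, 973), (2,
    2917), (1, 2997)]), (1076039095, 0, [(1, 13), (2, 37), (1, 91), (1, 757)], [(2, 117), (3,
    741), (3, 819), (1, 973), (2, 981), (3, 2997)]), (258889290, 0, [(1, 37), (1, 333), (1, 757)],
    [(2, 117), (1, 741), (1, 981), (2, 2917)]), (1002221142, 0, [(2, 13), (3, 37), (2, 91), (1,
    757), (1, 2197), (2, 2917)], [(1, 333), (1, 819), (2, 973), (3, 981), (2, 2925), (1, 2997)]),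
    (48368956100, 820, [(1, 27), (1, 2187)], [(1, 243)]), (3017455250, 0, [(1, 13), (2, 37), (1,
    91), (1, 757), (1, 2197)], [(2, 117), (3, 741), (3, 819), (1, 973), (2, 981), (1, 2917), (3,
    2997)]), (54152963778, 0, [(1, 333)], [(1, 2197)]), (5991733200, 0, [(1, 13), (3, 37), (1,
    91), (2, 117), (2, 757)], [(1, 973), (3, 981), (2, 2925)]), (105064099002, 738, [(1, 108), (1,
    324)], [(1, 2188)]), (48012150170, 0, [(1, 117)], [(1, 2925)]), (941545480, 0, [(2, 13), (3,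
    37), (2, 91), (1, 757), (2, 2197), (2, 2917)], [(1, 333), (1, 741), (1, 819), (2, 973), (3,
    981), (2, 2925), (1, 2997)]), (50158752511, 0, [(1, 93)], [(1, 2997)]), (5566922, 0, [(1, 13),
    (1, 91), (2, 93), (5, 117), (2, 333), (1, 741), (2, 819), (1, 2917)], [(1, 757), (1, 973), (2,
    2197), (1, 2925), (3, 2997)]), (1164086354, 0, [(1, 13), (1, 37), (1, 91), (1, 2197)], [(1,
    973), (1, 981)]), (980948684, 0, [(2, 13), (3, 37), (2, 91), (1, 757), (2, 2197), (2, 2917)],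
    [(1, 333), (1, 741), (1, 819), (2, 973), (3, 981), (3, 2925), (1, 2997)]), (20930388226, 0,
    [(1, 117)], [(1, 2997)]), (732570557, 0, [(2, 13), (2, 91), (1, 93), (2, 741), (3, 819), (2,
    2197), (1, 2917), (2, 2925)], [(2, 117), (2, 333), (2, 757), (2, 973), (1, 2997)]),
    (14405363316, 0, [(2, 13), (2, 91), (1, 741), (1, 819), (1, 2197)], [(2, 757), (2, 973), (1,
    2917), (1, 2997)]), (5783485304, 0, [(1, 13), (2, 37), (1, 91), (1, 757), (3, 2197)], [(1,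
    741), (1, 819), (1, 973), (2, 981), (1, 2997)]), (21715947173, 0, [(1, 819), (1, 2917)], []),
    (2506107564, 0, [(5, 93), (1, 117), (1, 2197)], [(3, 333), (1, 741), (1, 819), (3, 2917), (2,
    2997)]), (1476274958, 0, [(1, 37), (1, 93), (1, 757)], [(1, 981)]), (22925420982, 0, [(1,
    117)], [(1, 2917)])]

theorem c0_5 : chk 8 48 cl 0 5 151971600480 ts0_5 = true := by decide +kernel

theorem h0_5 : HasCert 8 4 (isb10 0) 0 5 :=
  ⟨48, 151971600480, ts0_5, by norm_num, by norm_num, by rw [codes_eq]; exact c0_5⟩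

def ts0_6 : List (ℕ × ℕ × List (ℕ × ℕ) × List (ℕ × ℕ)) :=
  [(23, 0, [(1, 91), (1, 741)], [(4, 253), (1, 819), (4, 2199)]), (46, 0, [(3, 91), (1, 117), (2,
    253), (1, 333), (2, 973)], [(3, 741), (1, 765), (2, 2199), (2, 2271), (1, 2925)]), (38, 0,
    [(1, 91), (2, 117), (2, 333), (1, 741), (2, 765), (4, 819), (2, 2925)], [(1, 253), (3, 973),
    (1, 2199), (3, 2271)]), (68, 0, [(1, 91), (1, 117), (1, 333), (1, 741), (1, 765), (3, 819),
    (1, 2925)], [(1, 253), (2, 973), (1, 2199), (2, 2271)]), (424, 0, [(1, 253)], [(1, 765)]),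
    (18, 0, [(1, 91), (1, 2199)], []), (204, 0, [(2, 91), (1, 117), (1, 253), (1, 333), (2, 973)],
    [(2, 741), (1, 765), (1, 2199), (2, 2271), (1, 2925)]), (18, 0, [(1, 253), (1, 741)], []),
    (424, 0, [(1, 117)], [(1, 2199)]), (237, 0, [(1, 91), (1, 741)], []), (424, 0, [(1, 333)],
    [(1, 2199)]), (424, 0, [(1, 253)], [(1, 2925)]), (834, 0, [(1, 333)], [(1, 2925)]), (114, 0,
    [(1, 741), (1, 973)], []), (114, 0, [(1, 91), (1, 2271)], [])]

theorem c0_6 : chk 8 22 cl 0 6 1728 ts0_6 = true := by decide +kernel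

theorem h0_6 : HasCert 8 4 (isb10 0) 0 6 :=
  ⟨22, 1728, ts0_6, by norm_num, by norm_num, by rw [codes_eq]; exact c0_6⟩

def ts0_7 : List (ℕ × ℕ × List (ℕ × ℕ) × List (ℕ × ℕ)) :=
  [(1, 0, [(1, 13)], [(1, 819)]), (1, 0, [(1, 253)], [(1, 819)])]

theorem c0_7 : chk 8 12 cl 0 7 2 ts0_7 = true := by decide +kernel

theorem h0_7 : HasCert 8 4 (isb10 0) 0 7 :=
  ⟨12, 2, ts0_7, by norm_num, by norm_num, by rw [codes_eq]; exact c0_7⟩

def ts1_2 : List (ℕ × ℕ × List (ℕ × ℕ) × List (ℕ × ℕ)) :=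
  [(1, 0, [(1, 247)], [(1, 759)]), (1, 0, [(1, 759)], [(1, 2191)])]

theorem c1_2 : chk 8 12 cl 1 2 2 ts1_2 = true := by decide +kernel

theorem h1_2 : HasCert 8 4 (isb10 0) 1 2 :=
  ⟨12, 2, ts1_2, by norm_num, by norm_num, by rw [codes_eq]; exact c1_2⟩

def ts1_3 : List (ℕ × ℕ × List (ℕ × ℕ) × List (ℕ × ℕ)) :=
  [(1446467778084, 0, [(2, 39), (1, 2217)], [(1, 109), (1, 117), (1, 733), (1, 741), (1, 811), (1,
    975)]), (260856747574, 0, [(1, 109), (1, 117), (2, 273), (2, 351), (1, 975), (1, 999), (1,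
    2217), (1, 2943)], [(1, 733), (5, 741), (1, 811), (1, 819), (2, 2997)]), (103814920428, 0,
    [(1, 819), (1, 999)], []), (396075899504, 0, [(2, 39), (3, 2217), (1, 2997)], [(4, 109), (1,
    273), (1, 351), (3, 733), (3, 811), (4, 975), (1, 2943)]), (240392472354, 0, [(1, 39)], [(1,
    2943)]), (1116334425214, 0, [(1, 39), (1, 109), (1, 273), (1, 351), (1, 975), (3, 2943)], [(1,
    741), (1, 757), (1, 819), (1, 2997)]), (4025817228720, 0, [(1, 273), (1, 351), (1, 999), (1,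
    2217), (1, 2943)], [(1, 733), (1, 741), (1, 811), (1, 819), (1, 2997)]), (6691563613794, 0,
    [(1, 109), (1, 117), (1, 733), (1, 741), (1, 811), (1, 975)], [(1, 2217), (1, 2943)]),
    (216416802840, 0, [(3, 39), (3, 109), (2, 117), (3, 273), (3, 351), (3, 975)], [(1, 741), (2,
    819), (1, 2943), (3, 2997)]), (4933627013204, 0, [(1, 109), (1, 117), (1, 273), (1, 351), (1,
    741), (1, 975)], [(1, 2997)]), (1623041996, 0, [(3, 39)], [(7, 117), (2, 741), (4, 757), (6,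
    2943)]), (348073357198, 0, [(1, 39), (4, 109), (3, 273), (3, 351), (1, 733), (2, 741), (1,
    811), (3, 819), (4, 975)], [(1, 117), (1, 2217), (3, 2997)]), (112602951574, 0, [(1, 39), (1,
    273), (1, 351), (2, 2217)], [(1, 109), (2, 733), (3, 741), (1, 757), (2, 811), (1, 975), (1,
    2997)]), (296156006008, 0, [(1, 39), (1, 109), (6, 117), (3, 273), (3, 351), (2, 741), (1,
    975), (2, 2217)], [(2, 733), (1, 757), (2, 811), (5, 819), (5, 2943), (3, 2997)]),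
    (5447012160305, 0, [(1, 819)], [(2, 999)]), (20408266508, 0, [(1, 109), (3, 117), (1, 273),
    (1, 351), (1, 975), (6, 2943)], [(3, 741), (1, 819), (1, 2997)]), (78606904896, 0, [(2, 39),
    (1, 819)], [(3, 117), (2, 757), (1, 2943)]), (264643619764, 0, [(3, 39)], [(7, 757)]),
    (3830184927550, 0, [(1, 39)], [(2, 757)]), (6784429268508, 0, [(1, 39), (1, 273), (1, 351),
    (1, 2217)], [(1, 733), (1, 811), (1, 819), (1, 2997)]), (3975229215010, 0, [(1, 39), (1, 117),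
    (1, 273), (1, 351), (1, 999), (1, 2217)], [(1, 733), (1, 811), (1, 2997)]), (1421610618200, 0,
    [(1, 39), (1, 109), (1, 733), (1, 741), (1, 811), (1, 975)], [(1, 2217)])]

theorem c1_3 : chk 8 56 cl 1 3 30153766752952 ts1_3 = true := by decide +kernel

theorem h1_3 : HasCert 8 4 (isb10 0) 1 3 :=
  ⟨56, 30153766752952, ts1_3, by norm_num, by norm_num, by rw [codes_eq]; exact c1_3⟩

def ts1_4 : List (ℕ × ℕ × List (ℕ × ℕ) × List (ℕ × ℕ)) :=
  [(10, 0, [(1, 37), (3, 741), (3, 819), (1, 999), (2, 2223)], [(3, 39), (3, 117), (1, 757), (1,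
    981), (2, 2925)]), (12, 0, [(1, 757)], [(1, 819)]), (32, 0, [(1, 37)], [(1, 981), (1, 999)]),
    (172, 0, [(1, 39), (1, 117), (1, 741), (1, 819), (1, 2223), (1, 2925)], [(1, 757), (1, 999)]),
    (12, 0, [(1, 117)], [(1, 999)]), (12, 0, [(1, 741)], [(1, 757)]), (55, 0, [(1, 37)], [(1,
    757), (1, 981)]), (112, 0, [(1, 999), (1, 2223)], []), (87, 0, [(1, 37), (1, 757)], [(1,
    981)]), (12, 0, [(1, 39)], [(1, 999)]), (46, 0, [(1, 117), (1, 757)], []), (48, 0, [(3, 37),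
    (1, 39), (1, 117), (2, 757), (2, 2223)], [(1, 741), (1, 819), (3, 981), (2, 999), (2, 2925)]),
    (34, 0, [(1, 757), (1, 2925)], []), (78, 0, [(1, 999)], [(1, 2223)]), (2, 0, [(1, 37), (1,
    2223)], [(1, 981)]), (2, 0, [(1, 37)], [(1, 981), (1, 2925)])]

theorem c1_4 : chk 8 20 cl 1 4 620 ts1_4 = true := by decide +kernel

theorem h1_4 : HasCert 8 4 (isb10 0) 1 4 :=
  ⟨20, 620, ts1_4, by norm_num, by norm_num, by rw [codes_eq]; exact c1_4⟩

def ts1_5 : List (ℕ × ℕ × List (ℕ × ℕ) × List (ℕ × ℕ)) :=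
  [(26, 0, [(2, 37), (2, 253), (3, 741), (2, 2197), (2, 2199)], [(1, 91), (1, 733)]), (692, 0,
    [(1, 91)], [(1, 2199)]), (206, 0, [(1, 37)], [(1, 733)]), (1188, 0, [(1, 37)], [(1, 741)]),
    (235, 0, [(1, 91)], [(1, 733)]), (666, 0, [(1, 91)], [(1, 741)]), (200, 0, [(2, 37), (2, 91),
    (2, 253), (2, 2197)], [(3, 733), (1, 741), (1, 2199)]), (18, 0, [(2, 37), (2, 253), (4, 741),
    (2, 2197), (4, 2199)], [(2, 91), (1, 733)]), (206, 0, [(1, 37), (1, 733)], []), (85, 0, [(1,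
    91), (1, 733)], [])]

theorem c1_5 : chk 8 22 cl 1 5 2576 ts1_5 = true := by decide +kernel

theorem h1_5 : HasCert 8 4 (isb10 0) 1 5 :=
  ⟨22, 2576, ts1_5, by norm_num, by norm_num, by rw [codes_eq]; exact c1_5⟩

def ts3_4 : List (ℕ × ℕ × List (ℕ × ℕ) × List (ℕ × ℕ)) :=
  [(2848, 0, [(1, 31), (1, 2217), (1, 2223)], [(1, 739), (1, 811), (1, 981)]), (512, 0, [(2, 31),
    (2, 2217), (1, 2223), (1, 2919), (1, 2997)], [(1, 279), (1, 351), (2, 739), (1, 811), (2,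
    981)]), (9786, 246, [(1, 36), (1, 738)], []), (450, 0, [(1, 31), (1, 109), (1, 351)], [(1,
    975), (1, 981), (1, 2919)]), (129, 0, [(1, 31), (1, 109), (1, 2217)], [(1, 739), (1, 975), (1,
    981)]), (927, 0, [(1, 279), (2, 2217), (1, 2223), (1, 2919)], [(1, 351), (2, 739), (1, 811),
    (1, 2997)]), (264, 0, [(2, 109), (2, 279), (1, 351), (1, 2217)], [(1, 739), (2, 975), (1,
    2919), (2, 2997)]), (3694, 0, [(1, 31), (1, 109), (1, 811), (1, 2997)], [(1, 279), (1, 975),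
    (1, 981), (1, 2223)]), (221, 0, [(1, 31), (4, 109), (1, 279), (2, 351), (2, 811)], [(4, 975),
    (1, 981), (2, 2223), (2, 2919), (1, 2997)]), (44, 0, [(3, 31), (1, 351), (1, 739), (2, 975),
    (2, 2223), (3, 2997)], [(2, 109), (3, 279), (2, 811), (3, 981), (1, 2217), (1, 2919)]), (745,
    0, [(1, 109), (2, 279), (3, 351), (1, 739), (1, 2223)], [(1, 811), (1, 975), (1, 2217), (3,
    2919), (2, 2997)])]

theorem c3_4 : chk 8 24 cl 3 4 9786 ts3_4 = true := by decide +kernel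

theorem h3_4 : HasCert 8 4 (isb10 0) 3 4 :=
  ⟨24, 9786, ts3_4, by norm_num, by norm_num, by rw [codes_eq]; exact c3_4⟩

def ts3_5 : List (ℕ × ℕ × List (ℕ × ℕ) × List (ℕ × ℕ)) :=
  [(1, 0, [(1, 739)], [(1, 2919)]), (1, 0, [(1, 811)], [(1, 975)]), (1, 0, [(1, 981)], [(1,
    2997)])]

theorem c3_5 : chk 8 13 cl 3 5 2 ts3_5 = true := by decide +kernel

theorem h3_5 : HasCert 8 4 (isb10 0) 3 5 :=
  ⟨13, 2, ts3_5, by norm_num, by norm_num, by rw [codes_eq]; exact c3_5⟩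

def ts4_5 : List (ℕ × ℕ × List (ℕ × ℕ) × List (ℕ × ℕ)) :=
  [(1, 0, [(1, 31)], [(1, 279)]), (1, 0, [(1, 39)], [(1, 739)]), (1, 0, [(1, 39)], [(1, 975)]),
    (1, 0, [(1, 109)], [(1, 2223)]), (1, 0, [(1, 111)], [(1, 975)]), (1, 0, [(1, 111)], [(1,
    2997)]), (1, 0, [(1, 117)], [(1, 739)]), (1, 0, [(1, 117)], [(1, 2997)]), (1, 0, [(1, 351)],
    [(1, 2217)])]

theorem c4_5 : chk 8 12 cl 4 5 2 ts4_5 = true := by decide +kernel

theorem h4_5 : HasCert 8 4 (isb10 0) 4 5 :=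
  ⟨12, 2, ts4_5, by norm_num, by norm_num, by rw [codes_eq]; exact c4_5⟩

def ts5_8 : List (ℕ × ℕ × List (ℕ × ℕ) × List (ℕ × ℕ)) :=
  [(1, 0, [(1, 39)], [(1, 757)]), (1, 0, [(1, 39)], [(1, 2215)]), (1, 0, [(1, 273)], [(1, 757)]),
    (1, 0, [(1, 273)], [(1, 2943)]), (1, 0, [(1, 279)], [(1, 2215)]), (1, 0, [(1, 279)], [(1,
    2943)])]

theorem c5_8 : chk 8 13 cl 5 8 2 ts5_8 = true := by decide +kernel

theorem h5_8 : HasCert 8 4 (isb10 0) 5 8 :=
  ⟨13, 2, ts5_8, by norm_num, by norm_num, by rw [codes_eq]; exact c5_8⟩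

def ps : List (List ℕ) :=
  [[0, 1, 2, 3, 4, 5, 6, 7, 8, 9], [9, 6, 2, 3, 4, 8, 1, 7, 5, 0], [7, 1, 6, 3, 4, 8, 2, 0, 5, 9],
    [0, 2, 1, 3, 4, 8, 6, 9, 5, 7], [7, 6, 1, 3, 4, 5, 2, 9, 8, 0], [9, 2, 6, 3, 4, 5, 1, 0, 8,
    7]]

def prs : List (ℕ × ℕ) :=
  [(0, 1), (0, 3), (0, 4), (0, 5), (0, 6), (0, 7), (1, 2), (1, 3), (1, 4), (1, 5), (3, 4), (3, 5),
    (4, 5), (5, 8)]

theorem ps_ok : ps.all (autOK 10 4 (isb10 0)) = true := by decide +kernel

theorem cov : allCov 10 ps prs = true := by decide +kernel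

theorem prs_ok : ∀ x ∈ prs, HasCert 8 4 (isb10 0) x.1 x.2 := by
  intro x hx
  unfold prs at hx
  simp only [List.mem_cons, List.not_mem_nil, or_false] at hx
  rcases hx with rfl | rfl | rfl | rfl | rfl | rfl | rfl | rfl | rfl | rfl | rfl | rfl | rfl | rfl
  · exact h0_1
  · exact h0_3
  · exact h0_4
  · exact h0_5
  · exact h0_6
  · exact h0_7
  · exact h1_2
  · exact h1_3
  · exact h1_4
  · exact h1_5
  · exact h3_4
  · exact h3_5
  · exact h4_5
  · exact h5_8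

/-- **The deletion is Rayleigh.** -/
theorem del {α : Type*} [Fintype α] {M : Matroid α} {φ : Fin 10 → α}
    (hφ : Function.Injective φ) (hr : Set.range φ = M.E)
    (hb : ∀ T : Finset (Fin 10), M.IsBase (φ '' (T : Set (Fin 10))) ↔
      T.card = 4 ∧ isb10 0 (mskT T) = true) : IsRayleigh M :=
  isRayleigh_of_certs (m := 8) hφ hr hb ps_ok prs_ok cov

end Pool.Agent.H75.RayN.D0
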