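import Pool.Agent.H75.Ray.Kron

/-!
# Monomials in n variables; removal of a digit (MP_934449_co)

`mono n w c` is the monomial with the exponents given by the first `n` digits of `c` in base 3, `rmd p c`
removes the digit `p`.
-/

set_option autoImplicit false

namespace Pool.Agent.H75.RayN

open Finset
open Pool.Agent.H75.Ray (dg D1b num cf dg_zero dg_succ D1b_le D1b_lt dg_add num_cons num_eq
  cf_cons cf_le cf_le_of_and hH)

/-- the monomial with a given code -/
noncomputable def mono (n : ℕ) (w : ℕ → ℝ) (c : ℕ) : ℝ := ∏ t ∈ range n, w t ^ dg c t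

theorem mono_nonneg (n : ℕ) {w : ℕ → ℝ} (hw : ∀ t, 0 ≤ w t) (c : ℕ) : 0 ≤ mono n w c :=
  Finset.prod_nonneg fun t _ => pow_nonneg (hw t) _

theorem mono_add (n : ℕ) (w : ℕ → ℝ) {k c c' : ℕ} (h : D1b k c = true) (h' : D1b k c' = true) :
    mono n w (c + c') = mono n w c * mono n w c' := by
  unfold mono
  rw [← Finset.prod_mul_distrib]
  refine Finset.prod_congr rfl fun t _ => ?_
  rw [dg_add (fun t => by
    have h1 := D1b_le h t
    have h2 := D1b_le h' t
    omega), pow_add]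

theorem mono_succ (n : ℕ) (w : ℕ → ℝ) (c : ℕ) :
    mono (n + 1) w c = w 0 ^ (c % 3) * mono n (fun t => w (t + 1)) (c / 3) := by
  unfold mono
  rw [Finset.prod_range_succ', mul_comm, dg_zero]
  congr 1
  exact Finset.prod_congr rfl fun t _ => by rw [dg_succ]

/-- the value of a list of terms for given weights -/
noncomputable def phi (n : ℕ) (w : ℕ → ℝ) (p : List (ℕ × ℕ)) : ℝ :=
  (p.map (fun a => (a.1 : ℝ) * mono n w a.2)).sum

theorem phi_cons (n : ℕ) (w : ℕ → ℝ) (a : ℕ × ℕ) (p : List (ℕ × ℕ)) :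
    phi n w (a :: p) = (a.1 : ℝ) * mono n w a.2 + phi n w p := by
  unfold phi
  rw [List.map_cons, List.sum_cons]

theorem phi_eq (n : ℕ) (w : ℕ → ℝ) {K : ℕ} {p : List (ℕ × ℕ)} (hp : ∀ a ∈ p, a.2 < K) :
    phi n w p = ∑ c ∈ range K, (cf p c : ℝ) * mono n w c := by
  induction p with
  | nil => simp [phi, cf]
  | cons a p ih =>
    rw [phi_cons, ih (fun b hb => hp b (List.mem_cons_of_mem a hb))]
    have h1 : ∀ c ∈ range K, (cf (a :: p) c : ℝ) * mono n w c =
        (if a.2 = c then (a.1 : ℝ) * mono n w c else 0) + (cf p c : ℝ) * mono n w c := by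
      intro c _
      rw [cf_cons, Nat.cast_add, add_mul]
      congr 1
      split_ifs
      · rfl
      · rw [Nat.cast_zero, zero_mul]
    rw [Finset.sum_congr rfl h1, Finset.sum_add_distrib, Finset.sum_ite_eq,
      if_pos (mem_range.2 (hp a (List.mem_cons_self)))]

theorem phi_le (m : ℕ) {w : ℕ → ℝ} (hw : ∀ t, 0 ≤ w t) {K : ℕ} {p n : List (ℕ × ℕ)}
    (hp : ∀ a ∈ p, a.2 < K) (hn : ∀ a ∈ n, a.2 < K) (h : ∀ c, cf n c ≤ cf p c) :
    phi m w n ≤ phi m w p := by
  rw [phi_eq m w hp, phi_eq m w hn]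
  exact Finset.sum_le_sum fun c _ => mul_le_mul_of_nonneg_right (by exact_mod_cast h c)
    (mono_nonneg m hw c)

/-! ### removal of a digit -/

/-- `c` without the digit `p` -/
def rmd (p c : ℕ) : ℕ := c % 3 ^ p + 3 ^ p * (c / 3 ^ (p + 1))

theorem rmd_zero (c : ℕ) : rmd 0 c = c / 3 := by
  unfold rmd
  rw [pow_zero, Nat.mod_one, zero_add, one_mul, zero_add, pow_one]

theorem rmd_succ (p c : ℕ) : rmd (p + 1) c = c % 3 + 3 * rmd p (c / 3) := by
  unfold rmd
  have h1 : c % 3 ^ (p + 1) = c % 3 + 3 * (c / 3 % 3 ^ p) := by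
    rw [pow_succ', Nat.mod_mul]
  have h2 : c / 3 ^ (p + 1 + 1) = c / 3 / 3 ^ (p + 1) := by
    rw [pow_succ' 3 (p + 1), Nat.div_div_eq_div_mul]
  rw [h1, h2, pow_succ' 3 p]
  generalize c / 3 / (3 * 3 ^ p) = u
  ring

/-- the weights without the weight `p` -/
def skp (p : ℕ) (w : ℕ → ℝ) (t : ℕ) : ℝ := if t < p then w t else w (t + 1)

theorem skp_nonneg (p : ℕ) {w : ℕ → ℝ} (hw : ∀ t, 0 ≤ w t) (t : ℕ) : 0 ≤ skp p w t := by
  unfold skp
  split_ifs
  · exact hw t
  · exact hw _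

theorem mono_rmd {n p : ℕ} (hp : p ≤ n) (w : ℕ → ℝ) (c : ℕ) :
    mono (n + 1) w c = w p ^ dg c p * mono n (skp p w) (rmd p c) := by
  induction p generalizing n w c with
  | zero =>
    rw [mono_succ, dg_zero, rmd_zero]
    congr 1
  | succ p ih =>
    obtain ⟨n, rfl⟩ : ∃ n', n = n' + 1 := ⟨n - 1, by omega⟩
    rw [mono_succ, ih (by omega) (fun t => w (t + 1)) (c / 3), mono_succ n (skp (p + 1) w),
      rmd_succ, dg_succ]
    have h1 : (c % 3 + 3 * rmd p (c / 3)) % 3 = c % 3 := by omega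
    have h2 : (c % 3 + 3 * rmd p (c / 3)) / 3 = rmd p (c / 3) := by omega
    have h3 : (fun t => skp (p + 1) w (t + 1)) = skp p (fun t => w (t + 1)) := by
      funext t
      unfold skp
      by_cases h : t < p
      · rw [if_pos h, if_pos (by omega)]
      · rw [if_neg h, if_neg (by omega)]
    have h4 : skp (p + 1) w 0 = w 0 := by
      unfold skp
      rw [if_pos (by omega)]
    rw [h1, h2, h3, h4]
    ring

theorem dg_rmd {p t : ℕ} (h : t < p) (c : ℕ) : dg (rmd p c) t = dg c t := by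
  induction p generalizing t c with
  | zero => omega
  | succ p ih =>
    rw [rmd_succ]
    cases t with
    | zero =>
      rw [dg_zero, dg_zero]
      omega
    | succ t =>
      rw [dg_succ, dg_succ]
      have h2 : (c % 3 + 3 * rmd p (c / 3)) / 3 = rmd p (c / 3) := by omega
      rw [h2]
      exact ih (by omega) _

theorem D1b_rmd {n p : ℕ} (hp : p ≤ n) {c : ℕ} (h : D1b (n + 1) c = true) :
    D1b n (rmd p c) = true := by
  induction p generalizing n c with
  | zero =>
    rw [rmd_zero]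
    simp only [D1b, Bool.and_eq_true] at h
    exact h.2
  | succ p ih =>
    obtain ⟨n, rfl⟩ : ∃ n', n = n' + 1 := ⟨n - 1, by omega⟩
    have h0 : (Nat.ble (c % 3) 1 && D1b (n + 1) (c / 3)) = true := h
    rw [Bool.and_eq_true] at h0
    have h1 : (c % 3 + 3 * rmd p (c / 3)) % 3 = c % 3 := by omega
    have h2 : (c % 3 + 3 * rmd p (c / 3)) / 3 = rmd p (c / 3) := by omega
    rw [rmd_succ]
    show (Nat.ble ((c % 3 + 3 * rmd p (c / 3)) % 3) 1 &&
      D1b n ((c % 3 + 3 * rmd p (c / 3)) / 3)) = true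
    rw [h1, h2, Bool.and_eq_true]
    exact ⟨h0.1, ih (by omega) h0.2⟩

/-- both digits -/
theorem mono_rmd2 {m e f : ℕ} (hef : e < f) (hf : f < m + 2) (w : ℕ → ℝ) (c : ℕ) :
    mono (m + 2) w c = w e ^ dg c e * w f ^ dg c f *
      mono m (skp e (skp f w)) (rmd e (rmd f c)) := by
  rw [mono_rmd (n := m + 1) (p := f) (by omega) w c,
    mono_rmd (n := m) (p := e) (by omega) (skp f w) (rmd f c), dg_rmd hef]
  have h : skp f w e = w e := by
    unfold skp
    rw [if_pos hef]
  rw [h]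
  ring

end Pool.Agent.H75.RayN
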